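import Mathlib
import Pool.Agent.Q43.Tw.BadTwo

set_option autoImplicit false

/-!
# Cousin cyclic numbers between consecutive cubes: all bad events
-/

namespace Q43.Tw

open Finset
open Q43.Cous (not_cyc sum_inv_le sum_inv_sq sum_div_le)
open scoped Classical

variable {n s z M T r : ℕ} {g : ℝ}

lemma Par.s_le (P : Par n s z M T g) : s ≤ n := by
  have := P.hs
  nlinarith [Nat.zero_le s]

lemma Par.log_ge (P : Par n s z M T g) : 1 ≤ Real.log n := by
  have hn0 : (16:ℝ) ≤ n := by exact_mod_cast P.hn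
  rw [Real.le_log_iff_exp_le (by linarith)]
  have := Real.exp_one_lt_d9
  linarith

lemma Par.logS (P : Par n s z M T g) {S : ℕ} (hS : S ≤ 8 * n * s) :
    1 + Real.log S ≤ 4 * Real.log n := by
  have h1 := P.log_ge
  have hn0 : (16:ℝ) ≤ n := by exact_mod_cast P.hn
  have h2 : Real.log S ≤ 3 * Real.log n := by
    rcases Nat.eq_zero_or_pos S with h | h
    · rw [h, Nat.cast_zero, Real.log_zero]
      linarith
    · have h3 : S ≤ n ^ 3 := by
        calc S ≤ 8 * n * s := hS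
          _ ≤ 8 * n * n := Nat.mul_le_mul_left _ P.s_le
          _ ≤ n * n * n := by
            have := P.hn
            nlinarith [Nat.zero_le (n * n)]
          _ = n ^ 3 := by ring
      have h4 : (S:ℝ) ≤ (n:ℝ)^3 := by exact_mod_cast h3
      have h5 := Real.log_le_log (by exact_mod_cast h) h4
      rw [Real.log_pow] at h5
      exact_mod_cast h5
  linarith

lemma partB2 (P : Par n s z M T g) (hr : Nat.Coprime r M) :
    (((win n M r).filter (fun m => ∃ p q : ℕ, p.Prime ∧ q.Prime ∧ z < p ∧ p ∣ m ∧ q ∣ m ∧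
        p ∣ q - 1 ∧ n * s < q)).card : ℝ) ≤
      4 * n^2 / M * (1408 * g) * (z:ℝ)⁻¹ + 4 * n^2 / M * (4 * Real.log n) * (T:ℝ)⁻¹ +
        2 * ((8 * n * s : ℕ) * (4 * Real.log n)) := by
  set S : ℕ := 8 * n * s with hS
  set J : Finset ℕ := (Finset.Ioc z S).filter Nat.Prime with hJ
  have hlog1 := P.log_ge
  have hg0 : 0 ≤ g := le_trans (by positivity) P.hg
  have hT0 : 0 < T := lt_of_lt_of_le P.hz P.hT
  have hsub : (win n M r).filter (fun m => ∃ p q : ℕ, p.Prime ∧ q.Prime ∧ z < p ∧ p ∣ m ∧ q ∣ m ∧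
        p ∣ q - 1 ∧ n * s < q) ⊆
      J.biUnion (fun p => (Finset.Icc 1 (S / p)).biUnion (fun t => W n M r p t)) := by
    intro m hm
    rw [Finset.mem_filter] at hm
    obtain ⟨hm, p, q, hp, hq, hzp, hpm, hqm, hpq, hqQ⟩ := hm
    have hm0 : 0 < m := by
      have := (mem_win.mp hm).1.1
      omega
    have hlt : p < q := by
      have h1 : p ≤ q - 1 := Nat.le_of_dvd (by have := hq.two_le; omega) hpq
      have := hq.two_le
      omega
    have hc : Nat.Coprime p q := by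
      rw [Nat.coprime_primes hp hq]
      omega
    obtain ⟨t, ht⟩ := hc.mul_dvd_of_dvd_of_dvd hpm hqm
    have ht0 : 0 < t := by
      rcases Nat.eq_zero_or_pos t with h | h
      · rw [h, mul_zero] at ht
        omega
      · exact h
    have hmeq : m = q * (p * t) := by rw [ht]; ring
    have hptS : p * t ≤ S := by
      by_contra hcon
      push Not at hcon
      have h1 : (n * s + 1) * (S + 1) ≤ q * (p * t) := Nat.mul_le_mul hqQ hcon
      have h2 := le_two_cube (by have := P.hn; omega) hm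
      rw [hmeq] at h2
      have h3 : 2 * n ^ 3 ≤ (n * s) * S := by
        rw [hS]
        calc 2 * n ^ 3 = 2 * n ^ 2 * n := by ring
          _ ≤ 2 * n ^ 2 * (4 * s * s) := Nat.mul_le_mul_left _ P.hs4
          _ = (n * s) * (8 * n * s) := by ring
      nlinarith
    simp only [Finset.mem_biUnion]
    refine ⟨p, ?_, t, ?_, ?_⟩
    · rw [hJ, Finset.mem_filter, Finset.mem_Ioc]
      refine ⟨⟨hzp, ?_⟩, hp⟩
      exact (Nat.le_mul_of_pos_right _ ht0).trans hptS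
    · rw [Finset.mem_Icc]
      refine ⟨ht0, ?_⟩
      rw [Nat.le_div_iff_mul_le hp.pos, mul_comm]
      exact hptS
    · rw [W, Finset.mem_filter]
      exact ⟨hm, q, hq, hpq, hmeq⟩
  have h1 : (((win n M r).filter (fun m => ∃ p q : ℕ, p.Prime ∧ q.Prime ∧ z < p ∧ p ∣ m ∧ q ∣ m ∧
        p ∣ q - 1 ∧ n * s < q)).card : ℝ) ≤
      ∑ p ∈ J, ∑ t ∈ Finset.Icc 1 (S / p), ((W n M r p t).card : ℝ) := by
    have := (Finset.card_le_card hsub).trans (Finset.card_biUnion_le)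
    have h2 : ∑ p ∈ J, ((Finset.Icc 1 (S / p)).biUnion (fun t => W n M r p t)).card ≤
        ∑ p ∈ J, ∑ t ∈ Finset.Icc 1 (S / p), (W n M r p t).card :=
      Finset.sum_le_sum (fun p _ => Finset.card_biUnion_le)
    exact_mod_cast this.trans h2
  refine h1.trans ?_
  have hsumt : ∀ p : ℕ, ∑ t ∈ Finset.Icc 1 (S / p), (t:ℝ)⁻¹ ≤ 4 * Real.log n := by
    intro p
    have h2 : ∑ t ∈ Finset.Icc 1 (S / p), (t:ℝ)⁻¹ ≤ ∑ t ∈ Finset.Icc 1 S, (t:ℝ)⁻¹ := by
      apply Finset.sum_le_sum_of_subset_of_nonneg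
      · intro t ht
        rw [Finset.mem_Icc] at ht ⊢
        exact ⟨ht.1, ht.2.trans (Nat.div_le_self _ _)⟩
      · intro t _ _
        positivity
    exact (h2.trans (sum_inv_le S)).trans (P.logS le_rfl)
  have h2 : ∀ p ∈ J, ∑ t ∈ Finset.Icc 1 (S / p), ((W n M r p t).card : ℝ) ≤
      4 * n^2 / M * (1408 * g) * ((p:ℝ)^2)⁻¹ +
        (if T < p then 4 * n^2 / M * (4 * Real.log n) * ((p:ℝ)^2)⁻¹ else 0) +
        2 * ((S : ℝ) / p) := by
    intro p hp
    rw [hJ, Finset.mem_filter, Finset.mem_Ioc] at hp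
    have hpp := hp.2
    have hp0 : (0:ℝ) < p := by exact_mod_cast hpp.pos
    have hSp : 0 ≤ 2 * ((S : ℝ) / p) := by positivity
    rcases Nat.lt_or_ge T p with hTp | hTp
    · rw [if_pos hTp]
      have h3 : ∀ t ∈ Finset.Icc 1 (S / p), ((W n M r p t).card : ℝ) ≤
          4 * n^2 / M * ((p:ℝ)^2)⁻¹ * (t:ℝ)⁻¹ + 2 := by
        intro t ht
        rw [Finset.mem_Icc] at ht
        exact W_trivial P.hM hpp.pos ht.1 hr
      refine (Finset.sum_le_sum h3).trans ?_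
      rw [Finset.sum_add_distrib, ← Finset.mul_sum, Finset.sum_const, Nat.card_Icc,
        Nat.add_sub_cancel, nsmul_eq_mul]
      have h4 : ((S / p : ℕ) : ℝ) ≤ (S:ℝ) / p := Nat.cast_div_le
      have h5 : 4 * (n:ℝ)^2 / M * ((p:ℝ)^2)⁻¹ * ∑ t ∈ Finset.Icc 1 (S / p), (t:ℝ)⁻¹ ≤
          4 * (n:ℝ)^2 / M * ((p:ℝ)^2)⁻¹ * (4 * Real.log n) := by
        have := hsumt p
        gcongr
      have h6 : 0 ≤ 4 * (n:ℝ)^2 / M * (1408 * g) * ((p:ℝ)^2)⁻¹ := by positivity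
      have h7 : 4 * (n:ℝ)^2 / M * ((p:ℝ)^2)⁻¹ * (4 * Real.log n) =
        4 * n^2 / M * (4 * Real.log n) * ((p:ℝ)^2)⁻¹ := by ring
      linarith
    · rw [if_neg (by omega)]
      have h3 : ∀ t ∈ Finset.Icc 1 (S / p), ((W n M r p t).card : ℝ) ≤
          352 * g / Real.log n * (4 * n^2 / M * ((p:ℝ)^2)⁻¹) * (t:ℝ)⁻¹ := by
        intro t ht
        rw [Finset.mem_Icc] at ht
        have hpt : p * t ≤ 8 * n * s := by
          rw [← hS, mul_comm]
          exact (Nat.le_div_iff_mul_le hpp.pos).mp ht.2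
        have := W_bt P hpp ht.1 hr hTp hpt
        rw [u] at this
        linarith
      refine (Finset.sum_le_sum h3).trans ?_
      rw [← Finset.mul_sum]
      have h5 : 352 * g / Real.log n * (4 * n^2 / M * ((p:ℝ)^2)⁻¹) *
          ∑ t ∈ Finset.Icc 1 (S / p), (t:ℝ)⁻¹ ≤
          352 * g / Real.log n * (4 * n^2 / M * ((p:ℝ)^2)⁻¹) * (4 * Real.log n) := by
        have := hsumt p
        gcongr
      refine h5.trans ?_
      have h6 : 352 * g / Real.log n * (4 * n^2 / M * ((p:ℝ)^2)⁻¹) * (4 * Real.log n) =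
        4 * n^2 / M * (1408 * g) * ((p:ℝ)^2)⁻¹ := by
        field_simp
        ring
      linarith
  refine (Finset.sum_le_sum h2).trans ?_
  rw [Finset.sum_add_distrib, Finset.sum_add_distrib, ← Finset.mul_sum, ← Finset.mul_sum]
  have h3 : ∑ p ∈ J, ((p:ℝ)^2)⁻¹ ≤ (z:ℝ)⁻¹ := by
    refine le_trans ?_ (sum_inv_sq (z := z) P.hz S)
    apply Finset.sum_le_sum_of_subset_of_nonneg (Finset.filter_subset _ _)
    intro p _ _
    positivity
  have h4 : ∑ p ∈ J, (S:ℝ) / p ≤ (S:ℝ) * (4 * Real.log n) := by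
    have h5 : ∑ p ∈ J, (S:ℝ) / p ≤ S * (1 + Real.log S) := by
      refine le_trans ?_ (sum_div_le z S)
      apply Finset.sum_le_sum_of_subset_of_nonneg (Finset.filter_subset _ _)
      intro p _ _
      positivity
    refine h5.trans ?_
    have := P.logS (S := S) le_rfl
    gcongr
  have h5 : ∑ p ∈ J, (if T < p then 4 * (n:ℝ)^2 / M * (4 * Real.log n) * ((p:ℝ)^2)⁻¹ else 0) ≤
      4 * n^2 / M * (4 * Real.log n) * (T:ℝ)⁻¹ := by
    rw [← Finset.sum_filter, ← Finset.mul_sum]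
    have h6 : ∑ p ∈ J.filter (fun p => T < p), ((p:ℝ)^2)⁻¹ ≤ (T:ℝ)⁻¹ := by
      refine le_trans ?_ (sum_inv_sq (z := T) hT0 S)
      apply Finset.sum_le_sum_of_subset_of_nonneg
      · intro p hp
        rw [Finset.mem_filter, hJ, Finset.mem_filter, Finset.mem_Ioc] at hp
        rw [Finset.mem_Ioc]
        exact ⟨hp.2, hp.1.1.2⟩
      · intro p _ _
        positivity
    gcongr
  have h6 : 4 * (n:ℝ)^2 / M * (1408 * g) * ∑ p ∈ J, ((p:ℝ)^2)⁻¹ ≤
      4 * (n:ℝ)^2 / M * (1408 * g) * (z:ℝ)⁻¹ := by gcongr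
  linarith

lemma bad_le {C : ℝ} (hC : 0 < C)
    (hbt : ∀ q l : ℕ, 1 ≤ q →
      (((Finset.Ico (2 ^ l) (2 ^ (l + 1))).filter (fun k => (q * k + 1).Prime)).card : ℝ) ≤
        C * ((q : ℝ) / (Nat.totient q)) * 2 ^ l / ((l : ℝ) + 1))
    (P : Par n s z M T g) (hr : Nat.Coprime r M) {Λ : ℕ} (hQ : n * s ≤ 2 ^ Λ) :
    (((win n M r).filter (fun m => ¬ Nat.Coprime m (Nat.totient m))).card : ℝ) ≤
      4 * n^2 / M * (((1 + 2 * C * (1 + Real.log Λ)) + 1408 * g) * (z:ℝ)⁻¹ +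
        4 * Real.log n * (T:ℝ)⁻¹) + 71 * (n * s) * Real.log n := by
  have hsub : (win n M r).filter (fun m => ¬ Nat.Coprime m (Nat.totient m)) ⊆
      (win n M r).filter (fun m => ∃ p : ℕ, p.Prime ∧ z < p ∧ p ^ 2 ∣ m) ∪
      ((win n M r).filter (fun m => ∃ p q : ℕ, p.Prime ∧ q.Prime ∧ z < p ∧ p ∣ m ∧ q ∣ m ∧
        p ∣ q - 1 ∧ q ≤ n * s) ∪
      (win n M r).filter (fun m => ∃ p q : ℕ, p.Prime ∧ q.Prime ∧ z < p ∧ p ∣ m ∧ q ∣ m ∧
        p ∣ q - 1 ∧ n * s < q)) := by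
    intro m hm
    rw [Finset.mem_filter] at hm
    obtain ⟨hm, hmc⟩ := hm
    have hm0 : m ≠ 0 := by
      have := (mem_win.mp hm).1.1
      omega
    obtain ⟨p, hp, hpm, h⟩ := not_cyc hm0 hmc
    have hzp : z < p := by
      by_contra hcon
      push Not at hcon
      have h1 := P.hMp p hp hcon
      have h2 := coprime_of_mem hr hm
      exact Nat.Prime.not_coprime_iff_dvd.mpr ⟨p, hp, hpm, h1⟩ h2
    rw [Finset.mem_union, Finset.mem_union]
    rcases h with h | ⟨q, hq, hqm, hpq⟩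
    · left
      rw [Finset.mem_filter]
      exact ⟨hm, p, hp, hzp, h⟩
    · right
      rcases Nat.lt_or_ge (n * s) q with h1 | h1
      · right
        rw [Finset.mem_filter]
        exact ⟨hm, p, q, hp, hq, hzp, hpm, hqm, hpq, h1⟩
      · left
        rw [Finset.mem_filter]
        exact ⟨hm, p, q, hp, hq, hzp, hpm, hqm, hpq, h1⟩
  have h1 := (Finset.card_le_card hsub).trans ((Finset.card_union_le _ _).trans
    (Nat.add_le_add_left (Finset.card_union_le _ _) _))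
  have h2 : (((win n M r).filter (fun m => ¬ Nat.Coprime m (Nat.totient m))).card : ℝ) ≤
      (((win n M r).filter (fun m => ∃ p : ℕ, p.Prime ∧ z < p ∧ p ^ 2 ∣ m)).card : ℝ) +
      ((((win n M r).filter (fun m => ∃ p q : ℕ, p.Prime ∧ q.Prime ∧ z < p ∧ p ∣ m ∧ q ∣ m ∧
        p ∣ q - 1 ∧ q ≤ n * s)).card : ℝ) +
      (((win n M r).filter (fun m => ∃ p q : ℕ, p.Prime ∧ q.Prime ∧ z < p ∧ p ∣ m ∧ q ∣ m ∧
        p ∣ q - 1 ∧ n * s < q)).card : ℝ)) := by
    exact_mod_cast h1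
  have hA := partA P hr
  have hB1 := partB1 hC hbt P hr hQ
  have hB2 := partB2 P hr
  have hlog1 := P.log_ge
  have h3 : ∑ i ∈ Finset.Icc 1 Λ, (i : ℝ)⁻¹ ≤ 1 + Real.log Λ := sum_inv_le Λ
  have h4 : (1 + Real.log ((n * s : ℕ) : ℝ)) ≤ 4 * Real.log n := P.logS (by nlinarith [Nat.zero_le (n * s)])
  have h5 : 4 * (n:ℝ)^2 / M * (2 * C * ∑ i ∈ Finset.Icc 1 Λ, (i : ℝ)⁻¹) * (z:ℝ)⁻¹ ≤
      4 * n^2 / M * (2 * C * (1 + Real.log Λ)) * (z:ℝ)⁻¹ := by gcongr
  have h6 : ((n * s : ℕ) : ℝ) * (1 + Real.log ((n * s : ℕ) : ℝ)) ≤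
      ((n * s : ℕ) : ℝ) * (4 * Real.log n) := by gcongr
  have h7 : (3:ℝ) * n * s ≤ 3 * (n * s) * Real.log n := by
    have : (0:ℝ) ≤ 3 * (n * s) := by positivity
    nlinarith
  push_cast at h6 hB2 hB1
  have h8 : 4 * (n:ℝ)^2 / M * (((1 + 2 * C * (1 + Real.log Λ)) + 1408 * g) * (z:ℝ)⁻¹ +
        4 * Real.log n * (T:ℝ)⁻¹) = 4 * (n:ℝ)^2 / M * (z:ℝ)⁻¹ +
        4 * n^2 / M * (2 * C * (1 + Real.log Λ)) * (z:ℝ)⁻¹ +
        4 * n^2 / M * (1408 * g) * (z:ℝ)⁻¹ + 4 * n^2 / M * (4 * Real.log n) * (T:ℝ)⁻¹ := by ring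
  rw [h8]
  linarith

end Q43.Tw
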