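import Mathlib
import Pool.Agent.Q43.Cous.Final

set_option autoImplicit false

/-!
# Counting the `c` all of whose shifts `c + d`, `d ∈ D`, are free of primes `≤ z`
-/

namespace Q43.Tw

open Finset
open scoped Classical Nat

/-- CRT for counting. -/
lemma crt_count {M q : ℕ} (hM : 0 < M) (hq : 0 < q) (h : Nat.Coprime M q) (P Q : ℕ → Prop)
    (hP : ∀ c, P c ↔ P (c % M)) (hQ : ∀ c, Q c ↔ Q (c % q)) :
    ((Finset.range (M * q)).filter (fun c => P c ∧ Q c)).card =
      ((Finset.range M).filter P).card * ((Finset.range q).filter Q).card := by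
  rw [← Finset.card_product]
  apply Finset.card_bij' (fun c _ => (c % M, c % q))
    (fun ab _ => ((Nat.chineseRemainder h ab.1 ab.2 : ℕ)))
  · intro c hc
    rw [Finset.mem_filter] at hc
    rw [Finset.mem_product, Finset.mem_filter, Finset.mem_filter, Finset.mem_range,
      Finset.mem_range]
    exact ⟨⟨Nat.mod_lt _ hM, (hP c).mp hc.2.1⟩, ⟨Nat.mod_lt _ hq, (hQ c).mp hc.2.2⟩⟩
  · intro ab hab
    rw [Finset.mem_product, Finset.mem_filter, Finset.mem_filter, Finset.mem_range,
      Finset.mem_range] at hab
    rw [Finset.mem_filter, Finset.mem_range]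
    have h1 := (Nat.chineseRemainder h ab.1 ab.2).2.1
    have h2 := (Nat.chineseRemainder h ab.1 ab.2).2.2
    refine ⟨Nat.chineseRemainder_lt_mul h ab.1 ab.2 hM.ne' hq.ne', ?_, ?_⟩
    · rw [hP]
      have : (Nat.chineseRemainder h ab.1 ab.2 : ℕ) % M = ab.1 := by
        rw [h1, Nat.mod_eq_of_lt hab.1.1]
      rw [this]
      exact hab.1.2
    · rw [hQ]
      have : (Nat.chineseRemainder h ab.1 ab.2 : ℕ) % q = ab.2 := by
        rw [h2, Nat.mod_eq_of_lt hab.2.1]
      rw [this]
      exact hab.2.2
  · intro c hc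
    rw [Finset.mem_filter, Finset.mem_range] at hc
    have h1 := Nat.chineseRemainder_modEq_unique h (a := c % M) (b := c % q) (z := c)
      (Nat.mod_modEq _ _).symm (Nat.mod_modEq _ _).symm
    have h2 := Nat.chineseRemainder_lt_mul h (c % M) (c % q) hM.ne' hq.ne'
    exact (Nat.ModEq.eq_of_lt_of_lt h1 hc.1 h2).symm
  · intro ab hab
    rw [Finset.mem_product, Finset.mem_filter, Finset.mem_filter, Finset.mem_range,
      Finset.mem_range] at hab
    have h1 := (Nat.chineseRemainder h ab.1 ab.2).2.1
    have h2 := (Nat.chineseRemainder h ab.1 ab.2).2.2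
    apply Prod.ext
    · change (Nat.chineseRemainder h ab.1 ab.2 : ℕ) % M = ab.1
      rw [h1, Nat.mod_eq_of_lt hab.1.1]
    · change (Nat.chineseRemainder h ab.1 ab.2 : ℕ) % q = ab.2
      rw [h2, Nat.mod_eq_of_lt hab.2.1]

/-- all shifts of `c` are free of primes `≤ z` -/
def Fr (D : Finset ℕ) (z c : ℕ) : Prop := ∀ p : ℕ, p.Prime → p ≤ z → ∀ d ∈ D, ¬ p ∣ c + d

/-- local condition -/
def Lo (D : Finset ℕ) (p c : ℕ) : Prop := ∀ d ∈ D, ¬ p ∣ c + d

/-- the number of admissible residue classes modulo `p` -/
noncomputable def kap (D : Finset ℕ) (p : ℕ) : ℕ := ((Finset.range p).filter (Lo D p)).card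

/-- the number of admissible residue classes modulo the product of the primes `≤ z` -/
noncomputable def Ad (D : Finset ℕ) (z : ℕ) : ℕ :=
  ((Finset.range (primorial z)).filter (Fr D z)).card

/-- their density -/
noncomputable def del (D : Finset ℕ) (z : ℕ) : ℝ := (Ad D z : ℝ) / primorial z

lemma dvd_mod_add {p M c d : ℕ} (h : p ∣ M) : p ∣ c % M + d ↔ p ∣ c + d := by
  have h1 : c % M + d ≡ c + d [MOD p] := ((Nat.mod_modEq c M).of_dvd h).add_right d
  exact ⟨fun h2 => (Nat.ModEq.dvd_iff h1 dvd_rfl).mp h2, fun h2 => (Nat.ModEq.dvd_iff h1 dvd_rfl).mpr h2⟩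

lemma Fr_mod (D : Finset ℕ) (z c : ℕ) : Fr D z c ↔ Fr D z (c % primorial z) := by
  unfold Fr
  constructor
  · intro h p hp hpz d hd h2
    exact h p hp hpz d hd ((dvd_mod_add (Q43.Cous.dvd_primorial' hp hpz)).mp h2)
  · intro h p hp hpz d hd h2
    exact h p hp hpz d hd ((dvd_mod_add (Q43.Cous.dvd_primorial' hp hpz)).mpr h2)

lemma Lo_mod (D : Finset ℕ) (p c : ℕ) : Lo D p c ↔ Lo D p (c % p) := by
  unfold Lo
  constructor
  · intro h d hd h2
    exact h d hd ((dvd_mod_add dvd_rfl).mp h2)
  · intro h d hd h2
    exact h d hd ((dvd_mod_add dvd_rfl).mpr h2)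

lemma primorial_succ' (z : ℕ) :
    primorial (z+1) = if (z+1).Prime then primorial z * (z+1) else primorial z := by
  unfold primorial
  rw [Finset.range_add_one (n := z+1), Finset.filter_insert]
  split_ifs with h
  · rw [Finset.prod_insert (by simp), mul_comm]
  · rfl

lemma coprime_primorial {z : ℕ} (h : (z+1).Prime) : Nat.Coprime (primorial z) (z+1) := by
  rw [Nat.coprime_comm, Nat.Prime.coprime_iff_not_dvd h]
  intro hd
  unfold primorial at hd
  obtain ⟨q, hq, hpq⟩ := (Prime.dvd_finsetProd_iff h.prime _).mp hd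
  rw [Finset.mem_filter, Finset.mem_range] at hq
  have := (Nat.prime_dvd_prime_iff_eq h hq.2).mp hpq
  omega

lemma Ad_succ (D : Finset ℕ) (z : ℕ) :
    Ad D (z+1) = if (z+1).Prime then Ad D z * kap D (z+1) else Ad D z := by
  unfold Ad
  rw [primorial_succ']
  split_ifs with h
  · have h1 : ∀ c, Fr D (z+1) c ↔ (Fr D z c ∧ Lo D (z+1) c) := by
      intro c
      unfold Fr Lo
      constructor
      · intro hc
        exact ⟨fun p hp hpz => hc p hp (by omega), hc (z+1) h le_rfl⟩
      · rintro ⟨h2, h3⟩ p hp hpz
        rcases Nat.lt_or_ge z p with h4 | h4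
        · have : p = z + 1 := by omega
          subst this
          exact h3
        · exact h2 p hp h4
    rw [Finset.filter_congr (fun c _ => h1 c)]
    exact crt_count (primorial_pos z) (by omega) (coprime_primorial h) _ _ (Fr_mod D z)
      (Lo_mod D (z+1))
  · have h1 : ∀ c, Fr D (z+1) c ↔ Fr D z c := by
      intro c
      unfold Fr
      constructor
      · intro hc p hp hpz
        exact hc p hp (by omega)
      · intro hc p hp hpz
        rcases Nat.lt_or_ge z p with h4 | h4
        · have : p = z + 1 := by omega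
          subst this
          exact absurd hp h
        · exact hc p hp h4
    rw [Finset.filter_congr (fun c _ => h1 c)]

lemma Ad_zero (D : Finset ℕ) : Ad D 0 = 1 := by
  unfold Ad
  have h : primorial 0 = 1 := by decide
  rw [h, Finset.range_one]
  have : ({0} : Finset ℕ).filter (Fr D 0) = {0} := by
    rw [Finset.filter_eq_self]
    intro c _ p hp hp0
    have := hp.pos
    omega
  rw [this, Finset.card_singleton]

lemma del_zero (D : Finset ℕ) : del D 0 = 1 := by
  unfold del
  rw [Ad_zero]
  have h : primorial 0 = 1 := by decide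
  rw [h]
  norm_num

lemma del_succ (D : Finset ℕ) (z : ℕ) :
    del D (z+1) = if (z+1).Prime then del D z * ((kap D (z+1) : ℝ) / ((z+1 : ℕ) : ℝ)) else del D z := by
  unfold del
  rw [Ad_succ, primorial_succ']
  split_ifs with h
  · push_cast
    rw [mul_div_mul_comm]
  · rfl

lemma del_nonneg (D : Finset ℕ) (z : ℕ) : 0 ≤ del D z := by
  unfold del
  positivity

lemma kap_le (D : Finset ℕ) (p : ℕ) : kap D p ≤ p := by
  unfold kap
  exact (Finset.card_filter_le _ _).trans (by simp)

lemma del_succ_le (D : Finset ℕ) (z : ℕ) : del D (z+1) ≤ del D z := by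
  rw [del_succ]
  have h0 := del_nonneg D z
  split_ifs with h
  · have h1 : ((kap D (z+1) : ℝ) / ((z+1 : ℕ) : ℝ)) ≤ 1 := by
      rw [div_le_one (by positivity)]
      exact_mod_cast kap_le D (z+1)
    nlinarith
  · rfl

lemma del_antitone (D : Finset ℕ) : Antitone (del D) := antitone_nat_of_succ_le (del_succ_le D)

lemma kap_ge (D : Finset ℕ) {p : ℕ} (hp : 0 < p) : p ≤ kap D p + D.card := by
  have h1 : (Finset.range p) ⊆ (Finset.range p).filter (Lo D p) ∪
      D.image (fun d => (p - d % p) % p) := by
    intro c hc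
    rw [Finset.mem_range] at hc
    rw [Finset.mem_union]
    by_cases h : Lo D p c
    · left
      rw [Finset.mem_filter, Finset.mem_range]
      exact ⟨hc, h⟩
    · right
      unfold Lo at h
      push Not at h
      obtain ⟨d, hd, hpd⟩ := h
      rw [Finset.mem_image]
      refine ⟨d, hd, ?_⟩
      have h2 : (c + d % p) % p = 0 := by
        rw [Nat.add_mod_mod]
        exact Nat.mod_eq_zero_of_dvd hpd
      have h3 : d % p < p := Nat.mod_lt _ hp
      rcases Nat.eq_zero_or_pos (d % p) with h4 | h4
      · rw [h4] at h2 ⊢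
        rw [Nat.add_zero, Nat.mod_eq_of_lt hc] at h2
        simp [h2]
      · have h5 : c + d % p = p := by
          obtain ⟨k, hk⟩ := Nat.dvd_of_mod_eq_zero h2
          have h6 : k = 1 := by
            have h7 : p * k < p * 2 := by omega
            have h8 := Nat.lt_of_mul_lt_mul_left h7
            have h9 : k ≠ 0 := by
              rintro rfl
              omega
            omega
          rw [hk, h6, mul_one]
        rw [Nat.mod_eq_of_lt (by omega)]
        omega
  have h2 := (Finset.card_le_card h1).trans ((Finset.card_union_le _ _).trans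
    (Nat.add_le_add_left Finset.card_image_le _))
  rw [Finset.card_range] at h2
  exact h2

/-- Window count, lower and upper bounds. -/
lemma window_count (D : Finset ℕ) (z A H : ℕ) :
    ((Ad D z : ℝ) * ((H:ℝ) / primorial z - 1) ≤
      (((Finset.Ioc A (A+H)).filter (Fr D z)).card : ℝ)) ∧
    ((((Finset.Ioc A (A+H)).filter (Fr D z)).card : ℝ) ≤
      (Ad D z : ℝ) * ((H:ℝ) / primorial z + 1)) := by
  have hM := primorial_pos z
  set S := (Finset.Ioc A (A+H)).filter (Fr D z) with hS
  have hfib : S.card = ∑ r ∈ (Finset.range (primorial z)).filter (Fr D z),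
      (S.filter (fun c => c % primorial z = r)).card := by
    apply Finset.card_eq_sum_card_fiberwise
    intro c hc
    have hc' : c ∈ S := hc
    rw [hS, Finset.mem_filter] at hc'
    rw [Finset.mem_coe, Finset.mem_filter, Finset.mem_range]
    exact ⟨Nat.mod_lt _ hM, (Fr_mod D z c).mp hc'.2⟩
  have hfib2 : ∀ r ∈ (Finset.range (primorial z)).filter (Fr D z),
      S.filter (fun c => c % primorial z = r) =
        (Finset.Ioc A (A+H)).filter (fun x => x ≡ r [MOD primorial z]) := by
    intro r hr
    rw [Finset.mem_filter, Finset.mem_range] at hr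
    ext c
    rw [hS, Finset.mem_filter, Finset.mem_filter, Finset.mem_filter]
    constructor
    · rintro ⟨⟨h1, -⟩, h2⟩
      refine ⟨h1, ?_⟩
      rw [Nat.ModEq, h2, Nat.mod_eq_of_lt hr.1]
    · rintro ⟨h1, h2⟩
      have h3 : c % primorial z = r := by
        rw [h2, Nat.mod_eq_of_lt hr.1]
      refine ⟨⟨h1, ?_⟩, h3⟩
      rw [Fr_mod, h3]
      exact hr.2
  have hcast : (S.card : ℝ) = ∑ r ∈ (Finset.range (primorial z)).filter (Fr D z),
      (((Finset.Ioc A (A+H)).filter (fun x => x ≡ r [MOD primorial z])).card : ℝ) := by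
    rw [hfib]
    push_cast
    apply Finset.sum_congr rfl
    intro r hr
    rw [hfib2 r hr]
  rw [hcast]
  constructor
  · have := Finset.card_nsmul_le_sum ((Finset.range (primorial z)).filter (Fr D z))
      (fun r => (((Finset.Ioc A (A+H)).filter (fun x => x ≡ r [MOD primorial z])).card : ℝ))
      ((H:ℝ) / primorial z - 1) (fun r _ => Q43.Cous.card_class_ge A H _ r hM)
    rw [nsmul_eq_mul] at this
    exact this
  · have := Finset.sum_le_card_nsmul ((Finset.range (primorial z)).filter (Fr D z))
      (fun r => (((Finset.Ioc A (A+H)).filter (fun x => x ≡ r [MOD primorial z])).card : ℝ))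
      ((H:ℝ) / primorial z + 1) (fun r _ => by
        have h1 := Q43.Cous.card_le_of_modEq
          (S := (Finset.Ioc A (A+H)).filter (fun x => x ≡ r [MOD primorial z])) (A := A) (h := H)
          (d := primorial z) (by
            intro m hm
            rw [Finset.mem_filter, Finset.mem_Ioc] at hm
            exact hm.1) (by
            intro m hm m' hm'
            rw [Finset.mem_filter] at hm hm'
            exact hm.2.trans hm'.2.symm)
        have h2 : ((((Finset.Ioc A (A+H)).filter (fun x => x ≡ r [MOD primorial z])).card : ℕ) : ℝ)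
          ≤ ((H / primorial z + 1 : ℕ) : ℝ) := by exact_mod_cast h1
        refine h2.trans ?_
        push_cast
        have h3 : ((H / primorial z : ℕ) : ℝ) ≤ (H:ℝ) / primorial z := Nat.cast_div_le
        linarith)
    rw [nsmul_eq_mul] at this
    exact this

end Q43.Tw
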