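import Mathlib
import Pool.Agent.Q43.Tw.Crt

set_option autoImplicit false

/-!
# The densities `del D z`
-/

namespace Q43.Tw

open Finset Filter Topology
open scoped Classical

/-- sum of `1/p` over the primes in `(a, b]` -/
noncomputable def rp (a b : ℕ) : ℝ := ∑ p ∈ (Finset.Ioc a b).filter Nat.Prime, (p:ℝ)⁻¹

lemma rp_nonneg (a b : ℕ) : 0 ≤ rp a b := by
  unfold rp
  exact Finset.sum_nonneg (fun p _ => by positivity)

lemma rp_self (a : ℕ) : rp a a = 0 := by simp [rp]

lemma rp_succ {a b : ℕ} (h : a ≤ b) :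
    rp a (b+1) = if (b+1).Prime then rp a b + ((b+1 : ℕ):ℝ)⁻¹ else rp a b := by
  unfold rp
  have h1 : Finset.Ioc a (b+1) = insert (b+1) (Finset.Ioc a b) := by
    ext x
    rw [Finset.mem_insert, Finset.mem_Ioc, Finset.mem_Ioc]
    omega
  rw [h1, Finset.filter_insert]
  split_ifs with hp
  · rw [Finset.sum_insert (by simp), add_comm]
  · rfl

lemma rp_add {a b c : ℕ} (hab : a ≤ b) (hbc : b ≤ c) : rp a c = rp a b + rp b c := by
  unfold rp
  rw [← Finset.Ioc_union_Ioc_eq_Ioc hab hbc, Finset.filter_union, Finset.sum_union]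
  rw [Finset.disjoint_left]
  intro q hq hq'
  rw [Finset.mem_filter, Finset.mem_Ioc] at hq hq'
  omega

lemma del_ratio (D : Finset ℕ) (a k : ℕ) :
    del D a * (1 - D.card * rp a (a+k)) ≤ del D (a+k) := by
  induction k with
  | zero => simp [rp_self]
  | succ k ih =>
    rw [← Nat.add_assoc, rp_succ (by omega), del_succ]
    split_ifs with hp
    · have h1 := kap_ge D (p := a+k+1) (by omega)
      have h1' : (((a+k+1 : ℕ)) : ℝ) ≤ kap D (a+k+1) + D.card := by exact_mod_cast h1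
      have h2 : (0:ℝ) < ((a+k+1 : ℕ) : ℝ) := by positivity
      have h3 : 1 - D.card * (((a+k+1 : ℕ)):ℝ)⁻¹ ≤ (kap D (a+k+1) : ℝ) / ((a+k+1 : ℕ) : ℝ) := by
        rw [le_div_iff₀ h2, sub_mul, mul_assoc, inv_mul_cancel₀ h2.ne']
        linarith
      have h4 := del_antitone D (show a ≤ a + k by omega)
      have h5 := del_nonneg D (a+k)
      have h6 := del_nonneg D a
      have h7 : (0:ℝ) ≤ D.card * (((a+k+1 : ℕ)):ℝ)⁻¹ := by positivity
      calc del D a * (1 - D.card * (rp a (a+k) + (((a+k+1 : ℕ)):ℝ)⁻¹))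
          = del D a * (1 - D.card * rp a (a+k)) - del D a * (D.card * (((a+k+1 : ℕ)):ℝ)⁻¹) := by ring
        _ ≤ del D (a+k) - del D (a+k) * (D.card * (((a+k+1 : ℕ)):ℝ)⁻¹) := by
          have := mul_le_mul_of_nonneg_right h4 h7
          linarith
        _ = del D (a+k) * (1 - D.card * (((a+k+1 : ℕ)):ℝ)⁻¹) := by ring
        _ ≤ _ := by gcongr
    · exact ih

lemma del_ratio' (D : Finset ℕ) {a b : ℕ} (h : a ≤ b) :
    del D a * (1 - D.card * rp a b) ≤ del D b := by
  obtain ⟨k, rfl⟩ := Nat.exists_eq_add_of_le h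
  exact del_ratio D a k

/-- dyadic prime reciprocal sums -/
lemma rp_block : ∃ C : ℝ, 1 ≤ C ∧ ∀ l : ℕ, rp (2^l) (2^(l+1)) ≤ C / ((l:ℝ) + 1) := by
  obtain ⟨C, hC, hbt⟩ := Pool.Agent.H692R2.USS.bt
  refine ⟨C + 1, by linarith, ?_⟩
  intro l
  have h := hbt 1 l le_rfl
  simp only [one_mul, Nat.totient_one, Nat.cast_one, div_one, mul_one] at h
  unfold rp
  have h1 : ∀ p ∈ (Finset.Ioc (2^l) (2^(l+1))).filter Nat.Prime, (p:ℝ)⁻¹ ≤ ((2:ℝ)^l)⁻¹ := by
    intro p hp
    rw [Finset.mem_filter, Finset.mem_Ioc] at hp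
    apply inv_anti₀ (by positivity)
    exact_mod_cast hp.1.1.le
  refine (Finset.sum_le_card_nsmul _ _ _ h1).trans ?_
  rw [nsmul_eq_mul]
  have h2 : ((Finset.Ioc (2^l) (2^(l+1))).filter Nat.Prime).card ≤
      ((Finset.Ico (2^l) (2^(l+1))).filter (fun k => (k+1).Prime)).card := by
    apply Finset.card_le_card_of_injOn (fun p => p - 1)
    · intro p hp
      have hp' : p ∈ (Finset.Ioc (2^l) (2^(l+1))).filter Nat.Prime := hp
      rw [Finset.mem_filter, Finset.mem_Ioc] at hp'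
      have h0 : 0 < 2^l := by positivity
      simp only [Finset.coe_filter, Finset.mem_Ico, Set.mem_ofPred_eq]
      refine ⟨⟨by omega, by omega⟩, ?_⟩
      rw [Nat.sub_add_cancel (by omega)]
      exact hp'.2
    · intro p hp p' hp' heq
      have hp1 : p ∈ (Finset.Ioc (2^l) (2^(l+1))).filter Nat.Prime := hp
      have hp1' : p' ∈ (Finset.Ioc (2^l) (2^(l+1))).filter Nat.Prime := hp'
      rw [Finset.mem_filter, Finset.mem_Ioc] at hp1 hp1'
      simp only at heq
      omega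
  have h3 : (((Finset.Ioc (2^l) (2^(l+1))).filter Nat.Prime).card : ℝ) ≤ C * 2^l / ((l:ℝ)+1) := by
    refine le_trans ?_ h
    exact_mod_cast h2
  calc _ ≤ (C * 2^l / ((l:ℝ)+1)) * ((2:ℝ)^l)⁻¹ := by gcongr
    _ = C / ((l:ℝ)+1) := by field_simp
    _ ≤ _ := by gcongr; linarith

lemma rp_blocks {C : ℝ} (hC : 0 ≤ C) (h : ∀ l : ℕ, rp (2^l) (2^(l+1)) ≤ C / ((l:ℝ) + 1)) (a k : ℕ) :
    rp (2^a) (2^(a+k)) ≤ C * k / ((a:ℝ) + 1) := by
  induction k with
  | zero => simp [rp_self]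
  | succ k ih =>
    rw [rp_add (b := 2^(a+k)) (Nat.pow_le_pow_right (by norm_num) (by omega))
      (Nat.pow_le_pow_right (by norm_num) (by omega)), ← Nat.add_assoc]
    have h1 := h (a+k)
    have h2 : C / (((a+k : ℕ):ℝ) + 1) ≤ C / ((a:ℝ)+1) := by
      apply div_le_div_of_nonneg_left hC (by positivity)
      push_cast
      have : (0:ℝ) ≤ k := Nat.cast_nonneg k
      linarith
    push_cast
    have h3 : C * ((k:ℝ)+1) / ((a:ℝ)+1) = C * k / ((a:ℝ)+1) + C / ((a:ℝ)+1) := by ring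
    rw [h3]
    linarith

lemma kap_pos {g : ℕ} (hg : 2 ∣ g) {p : ℕ} (hp : p.Prime) : 0 < kap {0, g} p := by
  rcases hp.eq_two_or_odd with rfl | h2
  · unfold kap
    rw [Finset.card_pos]
    refine ⟨1, ?_⟩
    rw [Finset.mem_filter, Finset.mem_range]
    refine ⟨by norm_num, ?_⟩
    intro d hd
    rw [Finset.mem_insert, Finset.mem_singleton] at hd
    rcases hd with rfl | rfl <;> omega
  · have h1 := kap_ge {0, g} hp.pos
    have h3 : ({0, g} : Finset ℕ).card ≤ 2 := Finset.card_le_two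
    have h4 : p ≠ 2 := by
      rintro rfl
      omega
    have := hp.two_le
    omega

lemma del_pos {g : ℕ} (hg : 2 ∣ g) (z : ℕ) : 0 < del {0, g} z := by
  induction z with
  | zero => rw [del_zero]; norm_num
  | succ z ih =>
    rw [del_succ]
    split_ifs with hp
    · have h1 : (0:ℝ) < kap {0, g} (z+1) := by exact_mod_cast kap_pos hg hp
      positivity
    · exact ih

/-- `del {0,g} (2^a)` decays at most polynomially in `a`. -/
lemma del_lower : ∃ m : ℕ, ∀ g : ℕ, 2 ∣ g → ∃ c : ℝ, 0 < c ∧ ∃ i0 : ℕ, ∀ a : ℕ, i0 ≤ a →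
    c / ((a:ℝ)+1)^m ≤ del {0, g} (2^a) := by
  obtain ⟨C, hC1, h⟩ := rp_block
  obtain ⟨m, hm⟩ := exists_nat_ge (4 * C)
  refine ⟨m, ?_⟩
  intro g hg
  refine ⟨del {0, g} (2^m) * ((m:ℝ)+1)^m, by have := del_pos hg (2^m); positivity, m, ?_⟩
  intro a ha
  rw [div_le_iff₀ (by positivity)]
  induction a, ha using Nat.le_induction with
  | base => rfl
  | succ a ha ih =>
    refine ih.trans ?_
    have h1 := del_ratio' {0, g} (show 2^a ≤ 2^(a+1) from Nat.pow_le_pow_right (by norm_num) (by omega))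
    have h2 := h a
    have hcard : (({0, g} : Finset ℕ).card : ℝ) ≤ 2 := by exact_mod_cast Finset.card_le_two
    have hd := del_pos hg (2^a)
    have ha0 : (0:ℝ) < (a:ℝ) + 1 := by positivity
    have ham : 4 * C ≤ a := hm.trans (by exact_mod_cast ha)
    have h3 : del {0, g} (2^a) * (1 - 2 * (C / ((a:ℝ)+1))) ≤ del {0, g} (2^(a+1)) := by
      refine le_trans ?_ h1
      apply mul_le_mul_of_nonneg_left _ hd.le
      have : (({0, g} : Finset ℕ).card : ℝ) * rp (2^a) (2^(a+1)) ≤ 2 * (C / ((a:ℝ)+1)) :=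
        mul_le_mul hcard h2 (rp_nonneg _ _) (by norm_num)
      linarith
    have hb : 1 + (m:ℝ) * ((a:ℝ)+1)⁻¹ ≤ (1 + ((a:ℝ)+1)⁻¹)^m :=
      one_add_mul_le_pow (by have : 0 ≤ ((a:ℝ)+1)⁻¹ := by positivity
                             linarith) m
    have hkey : 1 ≤ (1 - 2 * (C / ((a:ℝ)+1))) * (1 + (m:ℝ) * ((a:ℝ)+1)⁻¹) := by
      have e1 : (1 - 2 * (C / ((a:ℝ)+1))) * (1 + (m:ℝ) * ((a:ℝ)+1)⁻¹) =
          1 + ((m - 2 * C) * (a+1) - 2 * C * m) / ((a:ℝ)+1)^2 := by
        field_simp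
        ring
      rw [e1]
      have e2 : 0 ≤ (m - 2 * C) * ((a:ℝ)+1) - 2 * C * m := by
        have e3 : (m:ℝ)/2 * (4 * C) ≤ (m - 2 * C) * ((a:ℝ)+1) := by
          apply mul_le_mul <;> linarith
        linarith
      have e4 : 0 ≤ ((m - 2 * C) * ((a:ℝ)+1) - 2 * C * m) / ((a:ℝ)+1)^2 := by positivity
      linarith
    have hpos : 0 ≤ 1 - 2 * (C / ((a:ℝ)+1)) := by
      have : C / ((a:ℝ)+1) ≤ 1/2 := by
        rw [div_le_iff₀ ha0]
        linarith
      linarith
    have hkey2 : 1 ≤ (1 - 2 * (C / ((a:ℝ)+1))) * (1 + ((a:ℝ)+1)⁻¹)^m :=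
      hkey.trans (mul_le_mul_of_nonneg_left hb hpos)
    have h5 : (((a+1 : ℕ):ℝ)+1)^m = ((a:ℝ)+1)^m * (1 + ((a:ℝ)+1)⁻¹)^m := by
      rw [← mul_pow]
      congr 1
      push_cast
      field_simp
    rw [h5]
    calc del {0, g} (2^a) * ((a:ℝ)+1)^m = del {0, g} (2^a) * ((a:ℝ)+1)^m * 1 := by ring
      _ ≤ del {0, g} (2^a) * ((a:ℝ)+1)^m * ((1 - 2 * (C / ((a:ℝ)+1))) * (1 + ((a:ℝ)+1)⁻¹)^m) := by
        gcongr
      _ = (del {0, g} (2^a) * (1 - 2 * (C / ((a:ℝ)+1)))) * (((a:ℝ)+1)^m * (1 + ((a:ℝ)+1)⁻¹)^m) := by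
        ring
      _ ≤ _ := by gcongr

/-! ### triples -/

lemma kap_succ_le {D D' : Finset ℕ} (hD : D ⊆ D') {p c : ℕ} (hc : c < p) (h1 : Lo D p c)
    (h2 : ¬ Lo D' p c) : kap D' p + 1 ≤ kap D p := by
  unfold kap
  have h3 : (Finset.range p).filter (Lo D' p) ⊆ ((Finset.range p).filter (Lo D p)).erase c := by
    intro x hx
    rw [Finset.mem_filter] at hx
    rw [Finset.mem_erase, Finset.mem_filter]
    refine ⟨?_, hx.1, fun d hd => hx.2 d (hD hd)⟩
    rintro rfl
    exact h2 hx.2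
  have h4 : c ∈ (Finset.range p).filter (Lo D p) := by
    rw [Finset.mem_filter, Finset.mem_range]
    exact ⟨hc, h1⟩
  have h5 := Finset.card_le_card h3
  rw [Finset.card_erase_of_mem h4] at h5
  have h6 : 0 < ((Finset.range p).filter (Lo D p)).card := Finset.card_pos.mpr ⟨c, h4⟩
  omega

/-- `e` strictly between `0` and `g`, `D' = {0, e, g}`: the local count drops. -/
lemma kap_triple {e g p : ℕ} (he : 0 < e) (heg : e < g) (hp : g < p) :
    kap {0, e, g} p + 1 ≤ kap {0, g} p := by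
  refine kap_succ_le (c := p - e) ?_ ?_ ?_ ?_
  · intro x hx
    simp only [Finset.mem_insert, Finset.mem_singleton] at hx ⊢
    tauto
  · omega
  · intro d hd hpd
    rw [Finset.mem_insert, Finset.mem_singleton] at hd
    rcases hd with rfl | rfl
    · rw [Nat.add_zero] at hpd
      have := Nat.le_of_dvd (by omega) hpd
      omega
    · have h1 : p ∣ p - e + d - p := Nat.dvd_sub hpd dvd_rfl
      have h2 := Nat.le_of_dvd (by omega) h1
      omega
  · intro h
    apply h e (by simp)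
    rw [Nat.sub_add_cancel (by omega)]

lemma exp_rp_tendsto (a : ℕ) : Tendsto (fun y => Real.exp (-(rp a y))) atTop (𝓝 0) := by
  apply Real.tendsto_exp_atBot.comp
  apply tendsto_neg_atTop_atBot.comp
  -- the prime reciprocal sum diverges
  have h2 : ¬ Summable (Set.indicator {p | Nat.Prime p} (fun n : ℕ => (1:ℝ) / n)) :=
    not_summable_one_div_on_primes
  have h3 : Tendsto (fun n => ∑ i ∈ Finset.range n, Set.indicator {p | Nat.Prime p} (fun n : ℕ => (1:ℝ) / n) i)
      atTop atTop := by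
    rw [← not_summable_iff_tendsto_nat_atTop_of_nonneg]
    · exact h2
    · intro n
      apply Set.indicator_nonneg
      intro x _
      positivity
  have h4 : Tendsto (fun n => (∑ i ∈ Finset.range (n+1), Set.indicator {p | Nat.Prime p} (fun n : ℕ => (1:ℝ) / n) i)
      - (∑ i ∈ Finset.range (a+1), Set.indicator {p | Nat.Prime p} (fun n : ℕ => (1:ℝ) / n) i)) atTop atTop := by
    apply tendsto_atTop_add_const_right
    exact h3.comp (tendsto_add_atTop_nat 1)
  refine h4.congr' ?_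
  filter_upwards [eventually_ge_atTop a] with y hy
  unfold rp
  rw [sub_eq_iff_eq_add, Finset.range_eq_Ico, Finset.range_eq_Ico,
    ← Finset.sum_Ico_consecutive _ (Nat.zero_le (a+1)) (by omega : a+1 ≤ y+1), add_comm]
  congr 1
  rw [Finset.sum_filter]
  have h5 : Finset.Ico (a+1) (y+1) = Finset.Ioc a y := by
    ext x
    rw [Finset.mem_Ico, Finset.mem_Ioc]
    omega
  rw [h5]
  apply Finset.sum_congr rfl
  intro p _
  simp only [Set.indicator_apply, Set.mem_ofPred_eq, one_div]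

lemma triple_ratio {e g : ℕ} (he : 0 < e) (heg : e < g) (hg : 2 ∣ g) :
    Tendsto (fun y => del {0, e, g} y / del {0, g} y) atTop (𝓝 0) := by
  have hbound : ∀ k : ℕ, del {0, e, g} (g+k) / del {0, g} (g+k) ≤
      del {0, e, g} g / del {0, g} g * Real.exp (-(rp g (g+k))) := by
    intro k
    induction k with
    | zero => simp [rp_self]
    | succ k ih =>
      rw [← Nat.add_assoc, rp_succ (by omega), del_succ, del_succ]
      split_ifs with hp
      · have h1 := kap_triple he heg (p := g+k+1) (by omega)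
        have h2 := kap_le {0, g} (g+k+1)
        have h3 : (kap {0, e, g} (g+k+1) : ℝ) + 1 ≤ kap {0, g} (g+k+1) := by exact_mod_cast h1
        have h4 : (kap {0, g} (g+k+1) : ℝ) ≤ ((g+k+1 : ℕ) : ℝ) := by exact_mod_cast h2
        have h5 : (0:ℝ) < kap {0, g} (g+k+1) := by
          have : (0:ℝ) ≤ kap {0, e, g} (g+k+1) := Nat.cast_nonneg _
          linarith
        have h6 : (0:ℝ) < ((g+k+1 : ℕ) : ℝ) := by positivity
        have h7 : (kap {0, e, g} (g+k+1) : ℝ) / kap {0, g} (g+k+1) ≤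
            Real.exp (-(((g+k+1 : ℕ):ℝ)⁻¹)) := by
          have h8 : (kap {0, e, g} (g+k+1) : ℝ) / kap {0, g} (g+k+1) ≤ 1 - ((g+k+1 : ℕ):ℝ)⁻¹ := by
            rw [div_le_iff₀ h5, sub_mul, one_mul]
            have : ((g+k+1 : ℕ):ℝ)⁻¹ * kap {0, g} (g+k+1) ≤ 1 := by
              rw [inv_mul_le_iff₀ h6]
              linarith
            linarith
          have h9 := Real.add_one_le_exp (-(((g+k+1 : ℕ):ℝ)⁻¹))
          linarith
        have h10 : del {0, e, g} (g+k) * ((kap {0, e, g} (g+k+1) : ℝ) / ((g+k+1 : ℕ) : ℝ)) /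
            (del {0, g} (g+k) * ((kap {0, g} (g+k+1) : ℝ) / ((g+k+1 : ℕ) : ℝ))) =
            (del {0, e, g} (g+k) / del {0, g} (g+k)) *
              ((kap {0, e, g} (g+k+1) : ℝ) / kap {0, g} (g+k+1)) := by
          have := del_pos hg (g+k)
          field_simp
        rw [h10, neg_add, Real.exp_add, ← mul_assoc]
        apply mul_le_mul ih h7 (by positivity)
        have := del_nonneg {0, e, g} g
        have := del_pos hg g
        positivity
      · exact ih
  have h0 : ∀ y, 0 ≤ del {0, e, g} y / del {0, g} y := fun y =>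
    div_nonneg (del_nonneg _ _) (del_nonneg _ _)
  refine squeeze_zero' (Eventually.of_forall h0) ?_
    (by simpa using (exp_rp_tendsto g).const_mul (del {0, e, g} g / del {0, g} g))
  filter_upwards [eventually_ge_atTop g] with y hy
  obtain ⟨k, rfl⟩ := Nat.exists_eq_add_of_le hy
  exact hbound k

end Q43.Tw
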