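import Mathlib
import Pool.Agent.H387R2.U3

set_option autoImplicit false

/-!
# Lower bound for the sum of `1/q` over primes `q = 1 mod p`
-/

namespace Q43.Tw

open Finset Filter Topology
open scoped Classical

lemma pi1_upper {η : ℝ} (hη : 0 < η) :
    ∀ᶠ x : ℕ in atTop, H343E.pi1 x ≤ (1 + η) * (x / Real.log x) := by
  have h := (Pool.Agent.Helper507.PNT.pi_tendsto.comp (tendsto_natCast_atTop_atTop (R := ℝ))).eventually
    (gt_mem_nhds (show 1 < 1 + η by linarith))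
  filter_upwards [h, eventually_ge_atTop 3] with x hx hx3
  simp only [Function.comp, Nat.floor_natCast] at hx
  have hx0 : (0:ℝ) < x := by positivity
  have hL : 0 < Real.log x := Real.log_pos (by exact_mod_cast (by omega : 1 < x))
  rw [div_lt_iff₀ hx0] at hx
  rw [Pool.Agent.H387R2.Uni.pi1_eq, mul_div_assoc', le_div_iff₀ hL]
  linarith

/-- primes `q = 1 mod p` in a block -/
noncomputable def blk (a b p : ℕ) : Finset ℕ := (Finset.Ioc a b).filter (fun q => q.Prime ∧ p ∣ q - 1)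

lemma blk_card (x p : ℕ) :
    ((blk x (8*x) p).card : ℝ) = H343E.piAP (8*x) p 1 - H343E.piAP x p 1 := by
  have h1 : (Finset.Icc 1 (8*x)).filter (fun q => q.Prime ∧ q ≡ 1 [MOD p]) =
      (Finset.Icc 1 x).filter (fun q => q.Prime ∧ q ≡ 1 [MOD p]) ∪ blk x (8*x) p := by
    ext q
    rw [Finset.mem_union, blk, Finset.mem_filter, Finset.mem_filter, Finset.mem_filter,
      Finset.mem_Icc, Finset.mem_Icc, Finset.mem_Ioc]
    have key : q.Prime → (q ≡ 1 [MOD p] ↔ p ∣ q - 1) := fun hq => by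
      rw [Nat.ModEq.comm]
      exact Nat.modEq_iff_dvd' hq.one_le
    constructor
    · rintro ⟨h1, h2, h3⟩
      rcases Nat.lt_or_ge x q with h | h
      · right
        exact ⟨⟨h, h1.2⟩, h2, (key h2).mp h3⟩
      · left
        exact ⟨⟨h1.1, h⟩, h2, h3⟩
    · rintro (⟨h1, h2, h3⟩ | ⟨h1, h2, h3⟩)
      · exact ⟨⟨h1.1, by omega⟩, h2, h3⟩
      · exact ⟨⟨h2.one_le, h1.2⟩, h2, (key h2).mpr h3⟩
  have h2 : Disjoint ((Finset.Icc 1 x).filter (fun q => q.Prime ∧ q ≡ 1 [MOD p]))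
      (blk x (8*x) p) := by
    rw [Finset.disjoint_left]
    intro q hq hq'
    rw [Finset.mem_filter, Finset.mem_Icc] at hq
    rw [blk, Finset.mem_filter, Finset.mem_Ioc] at hq'
    omega
  unfold H343E.piAP
  rw [h1, Finset.card_union_of_disjoint h2]
  push_cast
  ring

lemma block_count : ∃ x1 : ℕ, 8 ≤ x1 ∧ ∀ x : ℕ, x1 ≤ x → ∀ p : ℕ, p.Prime →
    (p:ℝ) ≤ Real.log x ^ 2 → (x:ℝ) / (p * Real.log x) ≤ ((blk x (8*x) p).card : ℝ) := by
  obtain ⟨x0, h0⟩ := Pool.Agent.H387R2.Uni.siegel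
  obtain ⟨x1, h1⟩ := eventually_atTop.1 (pi1_upper (η := 1/5) (by norm_num))
  obtain ⟨x2, h2⟩ := eventually_atTop.1 (Pool.Agent.H387R2.Uni.pi1_lower (η := 1/5) (by norm_num))
  obtain ⟨x3, h3⟩ := eventually_atTop.1 ((Real.tendsto_log_atTop.comp
    (tendsto_natCast_atTop_atTop (R := ℝ))).eventually (eventually_ge_atTop 9))
  refine ⟨x0 + x1 + x2 + x3 + 8, by omega, ?_⟩
  intro x hx p hp hpx
  have hx8 : (8:ℝ) ≤ x := by exact_mod_cast (by omega : 8 ≤ x)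
  have hL9 : 9 ≤ Real.log x := h3 x (by omega)
  have hL0 : 0 < Real.log x := by linarith
  have hp2 : (2:ℝ) ≤ p := by exact_mod_cast hp.two_le
  have hLL : Real.log x ≤ Real.log ((8 * x : ℕ) : ℝ) := by
    apply Real.log_le_log (by linarith)
    push_cast
    linarith
  have hLL2 : Real.log ((8 * x : ℕ) : ℝ) ≤ 2 * Real.log x := by
    have e1 : 2 * Real.log x = Real.log ((x:ℝ)^2) := by
      rw [Real.log_pow]
      norm_num
    rw [e1]
    apply Real.log_le_log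
    · push_cast; linarith
    · push_cast; nlinarith
  have ha := h0 x (by omega) p hp.one_lt.le hpx 1 hp.one_lt (Nat.coprime_one_left p)
  have hb := h0 (8*x) (by omega) p hp.one_lt.le (hpx.trans (by gcongr)) 1 hp.one_lt
    (Nat.coprime_one_left p)
  have hc := h1 x (by omega)
  have hd := h2 (8*x) (by omega)
  rw [abs_le] at ha hb
  rw [blk_card]
  set L := Real.log x with hL
  set L' := Real.log ((8 * x : ℕ) : ℝ) with hL'
  have hL'0 : 0 < L' := by linarith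
  have hφ : ((Nat.totient p : ℕ) : ℝ) = (p:ℝ) - 1 := by
    rw [Nat.totient_prime hp, Nat.cast_sub hp.one_lt.le, Nat.cast_one]
  have hφ0 : (0:ℝ) < (Nat.totient p : ℝ) := by rw [hφ]; linarith
  have hφp : ((Nat.totient p : ℕ) : ℝ) ≤ p := by rw [hφ]; linarith
  have e1 : 16/5 * (x / L) ≤ H343E.pi1 (8*x) := by
    refine le_trans ?_ hd
    have : (8 * x : ℝ) / (2 * L) ≤ ((8 * x : ℕ) : ℝ) / L' := by
      push_cast
      apply div_le_div_of_nonneg_left (by linarith) hL'0 hLL2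
    have e2 : (8 * x : ℝ) / (2 * L) = 4 * (x / L) := by
      field_simp
      ring
    rw [e2] at this
    linarith
  have e3 : 2 * (x / L) ≤ H343E.pi1 (8*x) - H343E.pi1 x := by
    have : 0 ≤ (x:ℝ) / L := by positivity
    linarith
  have e4 : 2 * (x / L) / p ≤ H343E.pi1 (8*x) / (Nat.totient p : ℝ) - H343E.pi1 x / (Nat.totient p : ℝ) := by
    rw [← sub_div]
    have : 0 ≤ 2 * ((x:ℝ) / L) := by positivity
    calc 2 * (x / L) / p ≤ 2 * (x / L) / (Nat.totient p : ℝ) :=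
          div_le_div_of_nonneg_left this hφ0 hφp
      _ ≤ _ := by gcongr
  have e5 : ((8 * x : ℕ) : ℝ) / L' ^ 6 + x / L ^ 6 ≤ 9 * x / L^6 := by
    have : ((8 * x : ℕ) : ℝ) / L' ^ 6 ≤ ((8 * x : ℕ) : ℝ) / L ^ 6 := by
      apply div_le_div_of_nonneg_left (by positivity) (by positivity)
      gcongr
    refine (add_le_add_left this _).trans (le_of_eq ?_)
    push_cast
    ring
  have e6 : 9 * x / L^6 ≤ (x / L) / p := by
    rw [div_div, div_le_div_iff₀ (by positivity) (by positivity)]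
    have : (p:ℝ) * 9 ≤ L^2 * L^3 := by
      have h9 : 9 ≤ L^3 := by
        calc (9:ℝ) ≤ L := hL9
          _ = L^1 := by ring
          _ ≤ L^3 := pow_le_pow_right₀ (by linarith) (by norm_num)
      calc (p:ℝ) * 9 ≤ L^2 * 9 := by gcongr
        _ ≤ L^2 * L^3 := by gcongr
    calc 9 * (x:ℝ) * (L * p) = x * L * (p * 9) := by ring
      _ ≤ x * L * (L^2 * L^3) := by gcongr
      _ = x * L^6 := by ring
  have e7 : (x:ℝ) / (p * L) = (x / L) / p := by
    field_simp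
  have e8 : 2 * ((x:ℝ) / L) / p = 2 * ((x / L) / p) := by ring
  rw [e7]
  linarith [ha.2, hb.1]

/-- sum of `1/q` over a block -/
noncomputable def sb (a b p : ℕ) : ℝ := ∑ q ∈ blk a b p, (q:ℝ)⁻¹

lemma sb_add {a b c : ℕ} (hab : a ≤ b) (hbc : b ≤ c) (p : ℕ) : sb a c p = sb a b p + sb b c p := by
  unfold sb
  have h1 : blk a c p = blk a b p ∪ blk b c p := by
    unfold blk
    rw [← Finset.filter_union, Finset.Ioc_union_Ioc_eq_Ioc hab hbc]
  have h2 : Disjoint (blk a b p) (blk b c p) := by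
    rw [Finset.disjoint_left]
    intro q hq hq'
    rw [blk, Finset.mem_filter, Finset.mem_Ioc] at hq hq'
    omega
  rw [h1, Finset.sum_union h2]

lemma block_sum : ∃ j1 : ℕ, 1 ≤ j1 ∧ ∀ j : ℕ, j1 ≤ j → ∀ p : ℕ, p.Prime → p ≤ j →
    (1:ℝ) / (24 * p * j) ≤ sb (8^j) (8^(j+1)) p := by
  obtain ⟨x1, hx1, h⟩ := block_count
  refine ⟨x1, by omega, ?_⟩
  intro j hj p hp hpj
  have hj8 : j ≤ 8^j := (Nat.lt_pow_self (by norm_num)).le
  have hlog : Real.log ((8^j : ℕ) : ℝ) = j * Real.log 8 := by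
    push_cast
    rw [Real.log_pow]
  have h8 : Real.log 8 = 3 * Real.log 2 := by
    rw [show (8:ℝ) = 2^3 by norm_num, Real.log_pow]
    norm_num
  have hl2 := Real.log_two_gt_d9
  have hl2' := Real.log_two_lt_d9
  have hj0 : (8:ℝ) ≤ j := by exact_mod_cast (by omega : 8 ≤ j)
  have hp0 : (0:ℝ) < p := by exact_mod_cast hp.pos
  have hpj' : (p:ℝ) ≤ j := by exact_mod_cast hpj
  have h1 := h (8^j) (by omega) p hp (by
    rw [hlog, h8]
    have e1 : (j:ℝ) * 1 ≤ j * (3 * Real.log 2) := by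
      apply mul_le_mul_of_nonneg_left _ (by linarith)
      linarith
    have e2 : (j:ℝ)^2 ≤ (j * (3 * Real.log 2))^2 := by
      apply pow_le_pow_left₀ (by linarith)
      linarith
    nlinarith)
  rw [hlog] at h1
  have hbl : ∀ q ∈ blk (8^j) (8^(j+1)) p, ((8:ℝ)^(j+1))⁻¹ ≤ (q:ℝ)⁻¹ := by
    intro q hq
    rw [blk, Finset.mem_filter, Finset.mem_Ioc] at hq
    have hq0 : (0:ℝ) < q := by exact_mod_cast hq.2.1.pos
    apply inv_anti₀ hq0
    exact_mod_cast hq.1.2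
  have h2 := Finset.card_nsmul_le_sum _ _ _ hbl
  rw [nsmul_eq_mul] at h2
  unfold sb
  refine le_trans ?_ h2
  have e : 8 * 8^j = 8^(j+1) := by ring
  rw [e] at h1
  refine le_trans ?_ (mul_le_mul_of_nonneg_right h1 (by positivity))
  push_cast
  rw [h8]
  have h3 : (8:ℝ)^j / (p * (j * (3 * Real.log 2))) * ((8:ℝ)^(j+1))⁻¹ =
      1 / (p * (j * (24 * Real.log 2))) := by
    rw [pow_succ]
    field_simp
    ring
  rw [h3]
  apply div_le_div_of_nonneg_left (by norm_num) (by positivity)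
  have : 24 * Real.log 2 ≤ 24 := by linarith
  calc (p:ℝ) * (j * (24 * Real.log 2)) ≤ p * (j * 24) := by gcongr
    _ = _ := by ring

lemma blocks_sum {j1 p a : ℕ} (h : ∀ j : ℕ, j1 ≤ j → p ≤ j →
    (1:ℝ) / (24 * p * j) ≤ sb (8^j) (8^(j+1)) p) (ha : j1 ≤ a) (hpa : p ≤ a) (k : ℕ) :
    (1:ℝ) / (24 * p) * ∑ j ∈ Finset.Ico a (a+k), (j:ℝ)⁻¹ ≤ sb (8^a) (8^(a+k)) p := by
  induction k with
  | zero =>
    simp [sb, blk]
  | succ k ih =>
    rw [← Nat.add_assoc, Finset.sum_Ico_succ_top (by omega), mul_add,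
      sb_add (b := 8^(a+k)) (Nat.pow_le_pow_right (by norm_num) (by omega))
        (Nat.pow_le_pow_right (by norm_num) (by omega))]
    refine add_le_add ih ?_
    have h1 := h (a+k) (by omega) (by omega)
    refine le_trans (le_of_eq ?_) h1
    rw [one_div, one_div, mul_inv (24 * (p:ℝ))]

lemma harm_dyadic (a k : ℕ) : (k:ℝ) / 2 ≤ ∑ j ∈ Finset.Ico ((2:ℕ)^a) (2^(a+k)), ((j:ℕ):ℝ)⁻¹ := by
  induction k with
  | zero => simp
  | succ k ih =>
    rw [← Finset.sum_Ico_consecutive (fun j : ℕ => (j:ℝ)⁻¹) (Nat.pow_le_pow_right (by norm_num)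
      (by omega) : 2^a ≤ 2^(a+k)) (Nat.pow_le_pow_right (by norm_num) (by omega) :
      2^(a+k) ≤ 2^(a+(k+1)))]
    have h1 : ∀ j ∈ Finset.Ico ((2:ℕ)^(a+k)) (2^(a+(k+1))), ((2:ℝ)^(a+(k+1)))⁻¹ ≤ ((j:ℕ):ℝ)⁻¹ := by
      intro j hj
      rw [Finset.mem_Ico] at hj
      have h0 : 0 < (2:ℕ)^(a+k) := by positivity
      have hj0 : (0:ℝ) < j := by exact_mod_cast (by omega : 0 < j)
      apply inv_anti₀ hj0
      exact_mod_cast hj.2.le
    have h2 := Finset.card_nsmul_le_sum _ _ _ h1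
    rw [nsmul_eq_mul, Nat.card_Ico] at h2
    have h3 : 2^(a+(k+1)) - 2^(a+k) = 2^(a+k) := by
      have : 2^(a+(k+1)) = 2 * 2^(a+k) := by ring
      omega
    rw [h3] at h2
    have h4 : ((2^(a+k) : ℕ) : ℝ) * ((2:ℝ)^(a+(k+1)))⁻¹ = 1/2 := by
      push_cast
      rw [← Nat.add_assoc, pow_succ]
      field_simp
    rw [h4] at h2
    push_cast
    linarith

/-- **The lower bound for `S_p`**. -/
theorem Sp_ge : ∃ N : ℕ, ∀ n : ℕ, N ≤ n → ∀ p : ℕ, p.Prime → p ≤ Nat.log 2 (Nat.log 2 n) →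
    (Nat.log 2 (Nat.log 2 n) : ℝ) / (192 * p) ≤
      ∑ q ∈ (Finset.Icc 1 (Nat.sqrt n)).filter (fun q => q.Prime ∧ p ∣ q - 1), (q:ℝ)⁻¹ := by
  obtain ⟨j1, hj1, h⟩ := block_sum
  refine ⟨2 ^ (2 ^ (j1 + 24)), ?_⟩
  intro n hn p hp hpl
  obtain ⟨L, hL⟩ : ∃ L, L = Nat.log 2 n := ⟨_, rfl⟩
  obtain ⟨l, hl⟩ : ∃ l, l = Nat.log 2 L := ⟨_, rfl⟩
  obtain ⟨r, hr⟩ : ∃ r, r = Nat.log 2 l := ⟨_, rfl⟩
  rw [← hL, ← hl] at hpl
  rw [← hL, ← hl]
  have hn0 : n ≠ 0 := by
    have : 1 ≤ 2 ^ (2 ^ (j1 + 24)) := Nat.one_le_two_pow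
    omega
  have hL1 : 2 ^ (j1 + 24) ≤ L := by
    rw [hL]
    exact (Nat.le_log_iff_pow_le (by norm_num) hn0).mpr hn
  have hL0 : L ≠ 0 := by
    have : 1 ≤ 2 ^ (j1 + 24) := Nat.one_le_two_pow
    omega
  have hl1 : j1 + 24 ≤ l := by
    rw [hl]
    exact (Nat.le_log_iff_pow_le (by norm_num) hL0).mpr hL1
  have hl0 : l ≠ 0 := by omega
  have hn1 : 2 ^ L ≤ n := by rw [hL]; exact Nat.pow_log_le_self 2 hn0
  have hL2 : 2 ^ l ≤ L := by rw [hl]; exact Nat.pow_log_le_self 2 hL0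
  have hr1 : 2 ^ r ≤ l := by rw [hr]; exact Nat.pow_log_le_self 2 hl0
  have hr2 : l < 2 ^ (r + 1) := by rw [hr]; exact Nat.lt_pow_succ_log_self (by norm_num) l
  -- r is small compared to l
  have hr3 : 4 * r + 20 ≤ 2 * l := by
    have h4 : ∀ t : ℕ, 4 ≤ t → 4 * t ≤ 2 ^ t := by
      intro t ht
      induction t, ht using Nat.le_induction with
      | base => norm_num
      | succ t _ ih => rw [pow_succ]; omega
    rcases Nat.lt_or_ge r 4 with h5 | h5
    · omega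
    · have := h4 r h5
      omega
  have hk := blocks_sum (p := p) (j1 := j1) (a := 2^(r+1)) (fun j h1 h2 => h j h1 p hp h2) (by omega) (by omega)
    (2^(l-4) - 2^(r+1))
  have hle : r + 1 ≤ l - 4 := by omega
  have hpow : 2^(r+1) ≤ 2^(l-4) := Nat.pow_le_pow_right (by norm_num) hle
  have he : 2^(r+1) + (2^(l-4) - 2^(r+1)) = 2^(l-4) := by omega
  rw [he] at hk
  have hd := harm_dyadic (r+1) (l-4-(r+1))
  have he2 : r + 1 + (l-4-(r+1)) = l - 4 := by omega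
  rw [he2] at hd
  have hp0 : (0:ℝ) < p := by exact_mod_cast hp.pos
  have hfin : sb (8^(2^(r+1))) (8^(2^(l-4))) p ≤
      ∑ q ∈ (Finset.Icc 1 (Nat.sqrt n)).filter (fun q => q.Prime ∧ p ∣ q - 1), (q:ℝ)⁻¹ := by
    unfold sb
    apply Finset.sum_le_sum_of_subset_of_nonneg
    · intro q hq
      rw [blk, Finset.mem_filter, Finset.mem_Ioc] at hq
      rw [Finset.mem_filter, Finset.mem_Icc]
      refine ⟨⟨hq.2.1.one_le, ?_⟩, hq.2⟩
      rw [Nat.le_sqrt]
      have h1 : 8^(2^(l-4)) * 8^(2^(l-4)) ≤ 2 ^ L := by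
        rw [show 8 = 2^3 by norm_num, ← pow_mul, ← pow_add]
        apply Nat.pow_le_pow_right (by norm_num)
        have h2 : 2 ^ l = 16 * 2^(l-4) := by
          conv_lhs => rw [show l = 4 + (l-4) by omega]
          rw [pow_add]
          norm_num
        omega
      calc q * q ≤ 8^(2^(l-4)) * 8^(2^(l-4)) := Nat.mul_le_mul hq.1.2 hq.1.2
        _ ≤ 2 ^ L := h1
        _ ≤ n := hn1
    · intro q _ _
      positivity
  refine le_trans ?_ (hk.trans hfin)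
  have h5 : ((l:ℝ) / 4) / 2 ≤ ((l - 4 - (r+1) : ℕ) : ℝ) / 2 := by
    have h6 : l ≤ 4 * (l - 4 - (r+1)) := by omega
    have h7 : (l:ℝ) ≤ 4 * ((l - 4 - (r+1) : ℕ) : ℝ) := by exact_mod_cast h6
    linarith
  calc (l:ℝ) / (192 * p) = 1 / (24 * p) * ((l / 4) / 2) := by
        field_simp
        norm_num
    _ ≤ 1 / (24 * p) * ∑ j ∈ Finset.Ico ((2:ℕ)^(r+1)) (2^(l-4)), ((j:ℕ):ℝ)⁻¹ := by
        gcongr
        exact h5.trans hd

end Q43.Tw
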