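import Mathlib
import Pool.Agent.Q43.Tw.Crt

set_option autoImplicit false

/-!
# Turan's second moment argument: multiples of `p` without prime factors in `Q`
-/

namespace Q43.Tw

open Finset
open scoped Classical

/-- number of multiples of `d` in the window -/
noncomputable def cnt (X H d : ℕ) : ℝ := (((Finset.Ioc X (X+H)).filter (fun m => d ∣ m)).card : ℝ)

lemma cnt_ge (X H : ℕ) {d : ℕ} (hd : 0 < d) : (H:ℝ) / d - 1 ≤ cnt X H d := by
  have h := Q43.Cous.card_class_ge X H d 0 hd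
  have h2 : (Finset.Ioc X (X+H)).filter (fun x => x ≡ 0 [MOD d]) =
      (Finset.Ioc X (X+H)).filter (fun m => d ∣ m) := by
    apply Finset.filter_congr
    intro x _
    exact Nat.modEq_zero_iff_dvd
  rw [h2] at h
  exact h

lemma cnt_le (X H : ℕ) {d : ℕ} : cnt X H d ≤ (H:ℝ) / d + 1 := by
  have h1 := Q43.Cous.card_le_of_modEq
    (S := (Finset.Ioc X (X+H)).filter (fun m => d ∣ m)) (A := X) (h := H) (d := d) (by
      intro m hm
      rw [Finset.mem_filter, Finset.mem_Ioc] at hm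
      exact hm.1) (by
      intro m hm m' hm'
      rw [Finset.mem_filter] at hm hm'
      exact (Nat.modEq_zero_iff_dvd.mpr hm.2).trans (Nat.modEq_zero_iff_dvd.mpr hm'.2).symm)
  have h2 : cnt X H d ≤ ((H / d + 1 : ℕ) : ℝ) := by
    unfold cnt
    exact_mod_cast h1
  refine h2.trans ?_
  push_cast
  have h3 : ((H / d : ℕ) : ℝ) ≤ (H:ℝ) / d := Nat.cast_div_le
  linarith

lemma turan {X H p : ℕ} (hp : p.Prime) (Q : Finset ℕ) (hQ : ∀ q ∈ Q, q.Prime ∧ q ≠ p)
    (S : ℝ) (hS : S = ∑ q ∈ Q, (q:ℝ)⁻¹) :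
    ((((Finset.Ioc X (X+H)).filter (fun m => p ∣ m ∧ ∀ q ∈ Q, ¬ q ∣ m)).card : ℝ)) * S^2 ≤
      (H:ℝ) / p * S + (Q.card + S)^2 := by
  set B := (Finset.Ioc X (X+H)).filter (fun m => p ∣ m) with hB
  have hp0 : (0:ℝ) < p := by exact_mod_cast hp.pos
  have hS0 : 0 ≤ S := by
    rw [hS]
    exact Finset.sum_nonneg (fun q _ => by positivity)
  let ω : ℕ → ℝ := fun m => ∑ q ∈ Q, if q ∣ m then (1:ℝ) else 0
  -- first moment
  have h1 : ∑ m ∈ B, ω m = ∑ q ∈ Q, cnt X H (p * q) := by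
    simp only [ω]
    rw [Finset.sum_comm]
    apply Finset.sum_congr rfl
    intro q hq
    rw [← Finset.sum_filter, Finset.sum_const, nsmul_eq_mul, mul_one]
    unfold cnt
    congr 2
    rw [hB, Finset.filter_filter]
    apply Finset.filter_congr
    intro m _
    have hc : Nat.Coprime p q := (Nat.coprime_primes hp (hQ q hq).1).mpr (hQ q hq).2.symm
    exact ⟨fun h => hc.mul_dvd_of_dvd_of_dvd h.1 h.2,
      fun h => ⟨(dvd_mul_right _ _).trans h, (dvd_mul_left _ _).trans h⟩⟩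
  have h1' : (H:ℝ) / p * S - Q.card ≤ ∑ m ∈ B, ω m := by
    rw [h1]
    have h2 : ∑ q ∈ Q, ((H:ℝ) / ((p * q : ℕ) : ℝ) - 1) ≤ ∑ q ∈ Q, cnt X H (p * q) :=
      Finset.sum_le_sum (fun q hq => cnt_ge X H (Nat.mul_pos hp.pos (hQ q hq).1.pos))
    refine le_trans (le_of_eq ?_) h2
    rw [Finset.sum_sub_distrib, Finset.sum_const, nsmul_eq_mul, mul_one, hS, Finset.mul_sum]
    congr 1
    apply Finset.sum_congr rfl
    intro q hq
    push_cast
    have : (0:ℝ) < q := by exact_mod_cast (hQ q hq).1.pos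
    field_simp
  -- second moment
  have h2 : ∑ m ∈ B, (ω m)^2 ≤ (H:ℝ) / p * (S^2 + S) + (Q.card:ℝ)^2 := by
    have e1 : ∑ m ∈ B, (ω m)^2 = ∑ q ∈ Q, ∑ q' ∈ Q,
        ((B.filter (fun m => q ∣ m ∧ q' ∣ m)).card : ℝ) := by
      have : ∀ m, (ω m)^2 = ∑ q ∈ Q, ∑ q' ∈ Q, if (q ∣ m ∧ q' ∣ m) then (1:ℝ) else 0 := by
        intro m
        simp only [ω]
        rw [sq, Finset.sum_mul_sum]
        apply Finset.sum_congr rfl
        intro q _
        apply Finset.sum_congr rfl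
        intro q' _
        by_cases hq : q ∣ m <;> by_cases hq' : q' ∣ m <;> simp [hq, hq']
      rw [Finset.sum_congr rfl (fun m _ => this m), Finset.sum_comm]
      apply Finset.sum_congr rfl
      intro q _
      rw [Finset.sum_comm]
      apply Finset.sum_congr rfl
      intro q' _
      rw [← Finset.sum_filter, Finset.sum_const, nsmul_eq_mul, mul_one]
    rw [e1]
    have e2 : ∀ q ∈ Q, ∀ q' ∈ Q, ((B.filter (fun m => q ∣ m ∧ q' ∣ m)).card : ℝ) ≤
        (H:ℝ) / p * ((q:ℝ)⁻¹ * (q':ℝ)⁻¹) + (if q = q' then (H:ℝ) / p * (q:ℝ)⁻¹ else 0) + 1 := by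
      intro q hq q' hq'
      have hq0 : (0:ℝ) < q := by exact_mod_cast (hQ q hq).1.pos
      have hq0' : (0:ℝ) < q' := by exact_mod_cast (hQ q' hq').1.pos
      have hc : Nat.Coprime p q := (Nat.coprime_primes hp (hQ q hq).1).mpr (hQ q hq).2.symm
      have hc' : Nat.Coprime p q' := (Nat.coprime_primes hp (hQ q' hq').1).mpr (hQ q' hq').2.symm
      by_cases heq : q = q'
      · subst heq
        rw [if_pos rfl]
        have h3 : ((B.filter (fun m => q ∣ m ∧ q ∣ m)).card : ℝ) ≤ cnt X H (p * q) := by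
          unfold cnt
          have : B.filter (fun m => q ∣ m ∧ q ∣ m) ⊆
              (Finset.Ioc X (X+H)).filter (fun m => p * q ∣ m) := by
            intro m hm
            rw [hB, Finset.mem_filter, Finset.mem_filter] at hm
            rw [Finset.mem_filter]
            exact ⟨hm.1.1, hc.mul_dvd_of_dvd_of_dvd hm.1.2 hm.2.1⟩
          exact_mod_cast Finset.card_le_card this
        have h4 : cnt X H (p * q) ≤ (H:ℝ) / ((p * q : ℕ) : ℝ) + 1 := cnt_le X H
        have h5 : (H:ℝ) / ((p * q : ℕ) : ℝ) = (H:ℝ) / p * (q:ℝ)⁻¹ := by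
          push_cast
          field_simp
        have h6 : 0 ≤ (H:ℝ) / p * ((q:ℝ)⁻¹ * (q:ℝ)⁻¹) := by positivity
        linarith
      · rw [if_neg heq]
        have hcc : Nat.Coprime q q' := (Nat.coprime_primes (hQ q hq).1 (hQ q' hq').1).mpr heq
        have h3 : ((B.filter (fun m => q ∣ m ∧ q' ∣ m)).card : ℝ) ≤ cnt X H (p * (q * q')) := by
          unfold cnt
          have : B.filter (fun m => q ∣ m ∧ q' ∣ m) ⊆
              (Finset.Ioc X (X+H)).filter (fun m => p * (q * q') ∣ m) := by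
            intro m hm
            rw [hB, Finset.mem_filter, Finset.mem_filter] at hm
            rw [Finset.mem_filter]
            refine ⟨hm.1.1, (Nat.Coprime.mul_right hc hc').mul_dvd_of_dvd_of_dvd hm.1.2
              (hcc.mul_dvd_of_dvd_of_dvd hm.2.1 hm.2.2)⟩
          exact_mod_cast Finset.card_le_card this
        have h4 : cnt X H (p * (q * q')) ≤ (H:ℝ) / ((p * (q * q') : ℕ) : ℝ) + 1 := cnt_le X H
        have h5 : (H:ℝ) / ((p * (q * q') : ℕ) : ℝ) = (H:ℝ) / p * ((q:ℝ)⁻¹ * (q':ℝ)⁻¹) := by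
          push_cast
          field_simp
        linarith
    refine (Finset.sum_le_sum (fun q hq => Finset.sum_le_sum (fun q' hq' => e2 q hq q' hq'))).trans
      (le_of_eq ?_)
    simp only [Finset.sum_add_distrib]
    have e3 : ∑ q ∈ Q, ∑ q' ∈ Q, (H:ℝ) / p * ((q:ℝ)⁻¹ * (q':ℝ)⁻¹) = (H:ℝ) / p * S^2 := by
      rw [hS, sq, Finset.sum_mul_sum, Finset.mul_sum]
      apply Finset.sum_congr rfl
      intro q _
      rw [Finset.mul_sum]
    have e4 : ∑ q ∈ Q, ∑ q' ∈ Q, (if q = q' then (H:ℝ) / p * (q:ℝ)⁻¹ else 0) = (H:ℝ) / p * S := by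
      rw [hS, Finset.mul_sum]
      apply Finset.sum_congr rfl
      intro q hq
      rw [Finset.sum_ite_eq]
      simp [hq]
    have e5 : ∑ q ∈ Q, ∑ q' ∈ Q, (1:ℝ) = (Q.card:ℝ)^2 := by
      simp [sq]
    rw [e3, e4, e5]
    ring
  have h3 : (B.card : ℝ) ≤ (H:ℝ) / p + 1 := by
    have : (B.card : ℝ) = cnt X H p := rfl
    rw [this]
    exact cnt_le X H
  -- the variance
  have hvar : ∑ m ∈ B, (ω m - S)^2 ≤ (H:ℝ) / p * S + (Q.card + S)^2 := by
    have e1 : ∑ m ∈ B, (ω m - S)^2 = ∑ m ∈ B, (ω m)^2 - 2 * S * ∑ m ∈ B, ω m + S^2 * B.card := by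
      have : ∀ m, (ω m - S)^2 = (ω m)^2 - 2 * S * ω m + S^2 := fun m => by ring
      rw [Finset.sum_congr rfl (fun m _ => this m), Finset.sum_add_distrib,
        Finset.sum_sub_distrib, ← Finset.mul_sum, Finset.sum_const, nsmul_eq_mul]
      ring
    rw [e1]
    nlinarith [mul_le_mul_of_nonneg_left h1' (by linarith : 0 ≤ 2 * S),
      mul_le_mul_of_nonneg_left h3 (by positivity : 0 ≤ S^2)]
  refine le_trans ?_ hvar
  set N := (Finset.Ioc X (X+H)).filter (fun m => p ∣ m ∧ ∀ q ∈ Q, ¬ q ∣ m) with hN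
  have hNB : N ⊆ B := by
    intro m hm
    rw [hN, Finset.mem_filter] at hm
    rw [hB, Finset.mem_filter]
    exact ⟨hm.1, hm.2.1⟩
  have h4 : ∑ m ∈ N, (ω m - S)^2 = (N.card : ℝ) * S^2 := by
    have : ∀ m ∈ N, (ω m - S)^2 = S^2 := by
      intro m hm
      rw [hN, Finset.mem_filter] at hm
      have : ω m = 0 := by
        simp only [ω]
        apply Finset.sum_eq_zero
        intro q hq
        rw [if_neg (hm.2.2 q hq)]
      rw [this]
      ring
    rw [Finset.sum_congr rfl this, Finset.sum_const, nsmul_eq_mul]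
  rw [← h4]
  exact Finset.sum_le_sum_of_subset_of_nonneg hNB (fun m _ _ => sq_nonneg _)

/-- Cyclic multiples of `p` in a window: at most `H/(p S) + 4 R²/S²`. -/
lemma cyc_mult {X H p R : ℕ} (hp : p.Prime)
    (S : ℝ) (hS : S = ∑ q ∈ (Finset.Icc 1 R).filter (fun q => q.Prime ∧ p ∣ q - 1), (q:ℝ)⁻¹)
    (hS0 : 0 < S) :
    ((((Finset.Ioc X (X+H)).filter (fun m => p ∣ m ∧ Nat.Coprime m (Nat.totient m))).card : ℝ)) ≤
      (H:ℝ) / p / S + 4 * (R:ℝ)^2 / S^2 := by
  set Q := (Finset.Icc 1 R).filter (fun q => q.Prime ∧ p ∣ q - 1) with hQ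
  have hQp : ∀ q ∈ Q, q.Prime ∧ q ≠ p := by
    intro q hq
    rw [hQ, Finset.mem_filter] at hq
    refine ⟨hq.2.1, ?_⟩
    rintro rfl
    have h1 := Nat.le_of_dvd (by have := hq.2.1.two_le; omega) hq.2.2
    have := hq.2.1.two_le
    omega
  have h := turan (X := X) (H := H) hp Q hQp S hS
  have hsub : (Finset.Ioc X (X+H)).filter (fun m => p ∣ m ∧ Nat.Coprime m (Nat.totient m)) ⊆
      (Finset.Ioc X (X+H)).filter (fun m => p ∣ m ∧ ∀ q ∈ Q, ¬ q ∣ m) := by
    intro m hm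
    rw [Finset.mem_filter] at hm ⊢
    refine ⟨hm.1, hm.2.1, ?_⟩
    intro q hq hqm
    rw [hQ, Finset.mem_filter] at hq
    have h1 : p ∣ Nat.totient m := by
      have h2 : Nat.totient q ∣ Nat.totient m := Nat.totient_dvd_of_dvd hqm
      rw [Nat.totient_prime hq.2.1] at h2
      exact hq.2.2.trans h2
    have h3 := Nat.dvd_gcd hm.2.1 h1
    rw [hm.2.2] at h3
    exact hp.one_lt.ne' (Nat.dvd_one.mp h3)
  have hcard : ((((Finset.Ioc X (X+H)).filter
      (fun m => p ∣ m ∧ Nat.Coprime m (Nat.totient m))).card : ℝ)) ≤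
      ((((Finset.Ioc X (X+H)).filter (fun m => p ∣ m ∧ ∀ q ∈ Q, ¬ q ∣ m)).card : ℝ)) := by
    exact_mod_cast Finset.card_le_card hsub
  refine hcard.trans ?_
  have hQR : (Q.card : ℝ) ≤ R := by
    have : Q.card ≤ R := (Finset.card_filter_le _ _).trans (by simp)
    exact_mod_cast this
  have hSR : S ≤ R := by
    rw [hS]
    have h1 : ∑ q ∈ Q, (q:ℝ)⁻¹ ≤ ∑ q ∈ Q, (1:ℝ) := by
      apply Finset.sum_le_sum
      intro q hq
      apply inv_le_one_of_one_le₀
      exact_mod_cast (hQp q hq).1.one_lt.le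
    rw [Finset.sum_const, nsmul_eq_mul, mul_one] at h1
    exact h1.trans hQR
  have h5 : (Q.card + S)^2 ≤ 4 * (R:ℝ)^2 := by
    have : 0 ≤ (Q.card : ℝ) := by positivity
    calc (Q.card + S)^2 ≤ (R + R)^2 := by gcongr
      _ = _ := by ring
  have h6 : (H:ℝ) / p / S + 4 * (R:ℝ)^2 / S^2 = ((H:ℝ) / p * S + 4 * (R:ℝ)^2) / S^2 := by
    field_simp
  rw [h6, le_div_iff₀ (by positivity)]
  linarith

end Q43.Tw
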