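import Mathlib
import Pool.Agent.Q43.Tw.Turan
import Pool.Agent.Q43.Tw.Sp
import Pool.Agent.Q43.Tw.Del

set_option autoImplicit false

/-!
# The upper bound
-/

namespace Q43.Tw

open Finset Filter Topology
open scoped Classical Nat

/-- `c` in `(X, X+H]` with all `c + d` cyclic -/
noncomputable def PC (D : Finset ℕ) (X H : ℕ) : Finset ℕ :=
  (Finset.Ioc X (X+H)).filter (fun c => ∀ d ∈ D, Nat.Coprime (c+d) (Nat.totient (c+d)))

/-- cyclic multiples of `p` in a window -/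
noncomputable def cm (X H p : ℕ) : Finset ℕ :=
  (Finset.Ioc X (X+H)).filter (fun m => p ∣ m ∧ Nat.Coprime m (Nat.totient m))

lemma PC_split (D : Finset ℕ) (X H y : ℕ) :
    ((PC D X H).card : ℝ) ≤ (((Finset.Ioc X (X+H)).filter (Fr D y)).card : ℝ) +
      ∑ d ∈ D, ∑ p ∈ (Finset.Icc 1 y).filter Nat.Prime, ((cm (X+d) H p).card : ℝ) := by
  have hsub : PC D X H ⊆ (Finset.Ioc X (X+H)).filter (Fr D y) ∪
      D.biUnion (fun d => ((Finset.Icc 1 y).filter Nat.Prime).biUnion (fun p =>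
        (Finset.Ioc X (X+H)).filter (fun c => p ∣ c + d ∧ Nat.Coprime (c+d) (Nat.totient (c+d))))) := by
    intro c hc
    rw [PC, Finset.mem_filter] at hc
    rw [Finset.mem_union]
    by_cases hF : Fr D y c
    · left
      rw [Finset.mem_filter]
      exact ⟨hc.1, hF⟩
    · right
      unfold Fr at hF
      push Not at hF
      obtain ⟨p, hp, hpy, d, hd, hpd⟩ := hF
      rw [Finset.mem_biUnion]
      refine ⟨d, hd, ?_⟩
      rw [Finset.mem_biUnion]
      refine ⟨p, ?_, ?_⟩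
      · rw [Finset.mem_filter, Finset.mem_Icc]
        exact ⟨⟨hp.one_le, hpy⟩, hp⟩
      · rw [Finset.mem_filter]
        exact ⟨hc.1, hpd, hc.2 d hd⟩
  have h1 := (Finset.card_le_card hsub).trans ((Finset.card_union_le _ _).trans
    (Nat.add_le_add_left (Finset.card_biUnion_le.trans (Finset.sum_le_sum
      (fun d _ => Finset.card_biUnion_le))) _))
  have h2 : ∀ d p : ℕ, ((Finset.Ioc X (X+H)).filter
      (fun c => p ∣ c + d ∧ Nat.Coprime (c+d) (Nat.totient (c+d)))).card ≤ (cm (X+d) H p).card := by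
    intro d p
    apply Finset.card_le_card_of_injOn (fun c => c + d)
    · intro c hc
      have hc' : c ∈ (Finset.Ioc X (X+H)).filter
        (fun c => p ∣ c + d ∧ Nat.Coprime (c+d) (Nat.totient (c+d))) := hc
      rw [Finset.mem_filter, Finset.mem_Ioc] at hc'
      rw [cm, Finset.mem_coe, Finset.mem_filter, Finset.mem_Ioc]
      refine ⟨⟨?_, ?_⟩, hc'.2⟩
      · show X + d < c + d
        omega
      · show c + d ≤ X + d + H
        omega
    · intro c _ c' _ h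
      simp only at h
      omega
  have h3 : (PC D X H).card ≤ ((Finset.Ioc X (X+H)).filter (Fr D y)).card +
      ∑ d ∈ D, ∑ p ∈ (Finset.Icc 1 y).filter Nat.Prime, (cm (X+d) H p).card :=
    h1.trans (Nat.add_le_add_left (Finset.sum_le_sum (fun d _ => Finset.sum_le_sum
      (fun p _ => h2 d p))) _)
  exact_mod_cast h3

lemma cm_le {X H n p l : ℕ} (hp : p.Prime) (hl : 0 < l) (hpl : p ≤ l) (hH : H ≤ 4 * n^2)
    (hnl : 192 * l ≤ n)
    (hS : (l : ℝ) / (192 * p) ≤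
      ∑ q ∈ (Finset.Icc 1 (Nat.sqrt n)).filter (fun q => q.Prime ∧ p ∣ q - 1), (q:ℝ)⁻¹) :
    ((cm X H p).card : ℝ) ≤ 1536 * (n:ℝ)^2 / l := by
  have hp0 : (0:ℝ) < p := by exact_mod_cast hp.pos
  have hl0 : (0:ℝ) < l := by exact_mod_cast hl
  have hc0 : 0 < (l : ℝ) / (192 * p) := by positivity
  have h := cyc_mult (X := X) (H := H) hp _ rfl (hc0.trans_le hS)
  set S := ∑ q ∈ (Finset.Icc 1 (Nat.sqrt n)).filter (fun q => q.Prime ∧ p ∣ q - 1), (q:ℝ)⁻¹ with hSdef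
  have hS0 : 0 < S := hc0.trans_le hS
  have hH' : (H:ℝ) ≤ 4 * (n:ℝ)^2 := by exact_mod_cast hH
  have hR : ((Nat.sqrt n : ℕ) : ℝ)^2 ≤ n := by exact_mod_cast Nat.sqrt_le' n
  have h1 : (H:ℝ) / p / S ≤ 768 * (n:ℝ)^2 / l := by
    calc (H:ℝ) / p / S ≤ (4 * (n:ℝ)^2) / p / ((l : ℝ) / (192 * p)) := by gcongr
      _ = 768 * (n:ℝ)^2 / l := by
        field_simp
        ring
  have h2 : 4 * ((Nat.sqrt n : ℕ) : ℝ)^2 / S^2 ≤ 768 * (n:ℝ)^2 / l := by
    have hpl' : (p:ℝ) ≤ l := by exact_mod_cast hpl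
    have hnl' : 192 * (l:ℝ) ≤ n := by exact_mod_cast hnl
    calc 4 * ((Nat.sqrt n : ℕ) : ℝ)^2 / S^2 ≤ 4 * n / ((l : ℝ) / (192 * p))^2 := by gcongr
      _ ≤ 768 * (n:ℝ)^2 / l := by
        rw [div_le_div_iff₀ (by positivity) hl0]
        have e1 : 768 * (n:ℝ)^2 * ((l : ℝ) / (192 * p))^2 = (768 / 192^2) * (n:ℝ)^2 * (l/p)^2 := by
          field_simp
        rw [e1]
        have e2 : 1 ≤ ((l:ℝ)/p)^2 := by
          apply one_le_pow₀
          rw [le_div_iff₀ hp0]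
          linarith
        have e3 : 4 * (n:ℝ) * l ≤ (768 / 192^2) * (n:ℝ)^2 := by nlinarith
        calc 4 * (n:ℝ) * l ≤ (768 / 192^2) * (n:ℝ)^2 * 1 := by linarith
          _ ≤ _ := by gcongr
  have h3 : ((cm X H p).card : ℝ) ≤ (H:ℝ) / p / S + 4 * ((Nat.sqrt n : ℕ) : ℝ)^2 / S^2 := h
  have h4 : 1536 * (n:ℝ)^2 / l = 768 * (n:ℝ)^2 / l + 768 * (n:ℝ)^2 / l := by ring
  linarith

/-- **General upper bound.** -/
theorem upper : ∃ N : ℕ, ∀ n : ℕ, N ≤ n → ∀ (D : Finset ℕ) (X H y : ℕ),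
    y ≤ Nat.log 2 (Nat.log 2 n) → H ≤ 4 * n^2 →
    ((PC D X H).card : ℝ) ≤ del D y * ((H:ℝ) + primorial y) +
      D.card * (1536 * (n:ℝ)^2 * ((y:ℝ) / Nat.log 2 (Nat.log 2 n))) := by
  obtain ⟨N, hN⟩ := Sp_ge
  refine ⟨N + 2^(2^12), ?_⟩
  intro n hn D X H y hy hH
  have hn0 : n ≠ 0 := by
    have : 1 ≤ 2 ^ (2 ^ 12) := Nat.one_le_two_pow
    omega
  obtain ⟨L, hL⟩ : ∃ L, L = Nat.log 2 n := ⟨_, rfl⟩
  obtain ⟨l, hl⟩ : ∃ l, l = Nat.log 2 L := ⟨_, rfl⟩
  have hL1 : 2 ^ 12 ≤ L := by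
    rw [hL]
    exact (Nat.le_log_iff_pow_le (by norm_num) hn0).mpr (by omega)
  have hL0 : L ≠ 0 := by omega
  have hl1 : 12 ≤ l := by
    rw [hl]
    exact (Nat.le_log_iff_pow_le (by norm_num) hL0).mpr hL1
  have hn1 : 2 ^ L ≤ n := by rw [hL]; exact Nat.pow_log_le_self 2 hn0
  have hL2 : 2 ^ l ≤ L := by rw [hl]; exact Nat.pow_log_le_self 2 hL0
  have hnl : 192 * l ≤ n := by
    have h1 : l < 2 ^ l := Nat.lt_two_pow_self
    have h2 : L < 2 ^ L := Nat.lt_two_pow_self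
    have h3 : 192 * L ≤ 2 ^ L := by
      have h4 : ∀ t : ℕ, 12 ≤ t → 192 * t ≤ 2 ^ t := by
        intro t ht
        induction t, ht using Nat.le_induction with
        | base => norm_num
        | succ t _ ih => rw [pow_succ]; omega
      exact h4 L (by omega)
    omega
  have h := PC_split D X H y
  have hS := hN n (by omega)
  rw [← hL, ← hl] at hS hy ⊢
  have h1 := (window_count D y X H).2
  have hl0 : (0:ℝ) < l := by exact_mod_cast (by omega : 0 < l)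
  have hMy : (0:ℝ) < primorial y := by exact_mod_cast primorial_pos y
  have h2 : (Ad D y : ℝ) * ((H:ℝ) / primorial y + 1) = del D y * ((H:ℝ) + primorial y) := by
    unfold del
    field_simp
  rw [h2] at h1
  refine h.trans (add_le_add h1 ?_)
  have h3 : ∀ d ∈ D, ∑ p ∈ (Finset.Icc 1 y).filter Nat.Prime, ((cm (X+d) H p).card : ℝ) ≤
      1536 * (n:ℝ)^2 * ((y:ℝ) / l) := by
    intro d _
    have h4 : ∀ p ∈ (Finset.Icc 1 y).filter Nat.Prime, ((cm (X+d) H p).card : ℝ) ≤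
        1536 * (n:ℝ)^2 / l := by
      intro p hp
      rw [Finset.mem_filter, Finset.mem_Icc] at hp
      exact cm_le hp.2 (by omega) (by omega) hH hnl (hS p hp.2 (by omega))
    refine (Finset.sum_le_card_nsmul _ _ _ h4).trans ?_
    rw [nsmul_eq_mul]
    have h5 : (((Finset.Icc 1 y).filter Nat.Prime).card : ℝ) ≤ y := by
      have : ((Finset.Icc 1 y).filter Nat.Prime).card ≤ y := (Finset.card_filter_le _ _).trans (by simp)
      exact_mod_cast this
    calc _ ≤ (y:ℝ) * (1536 * (n:ℝ)^2 / l) := by gcongr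
      _ = _ := by ring
  refine (Finset.sum_le_card_nsmul _ _ _ h3).trans (le_of_eq ?_)
  rw [nsmul_eq_mul]

end Q43.Tw
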