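import Mathlib
import Pool.Agent.Q43.Tw.BadAll
import Pool.Agent.Q43.Tw.Upper

set_option autoImplicit false

/-!
# The lower bound
-/

namespace Q43.Tw

open Finset Filter Topology
open scoped Classical Nat

lemma prime_dvd_primorial {z p : ℕ} (hp : p.Prime) (h : p ∣ primorial z) : p ≤ z := by
  unfold primorial at h
  obtain ⟨q, hq, hpq⟩ := (Prime.dvd_finsetProd_iff hp.prime _).mp h
  rw [Finset.mem_filter, Finset.mem_range] at hq
  have := (Nat.prime_dvd_prime_iff_eq hp hq.2).mp hpq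
  omega

lemma primorial_ratio {z : ℕ} (hz : 3 ≤ z) :
    ((primorial z : ℕ) : ℝ) / Nat.totient (primorial z) ≤ Real.sqrt (3 * z) := by
  have hM := primorial_pos z
  have hM' : (0:ℝ) < primorial z := by exact_mod_cast hM
  have h1 : ((Nat.totient (primorial z) : ℕ) : ℝ) = primorial z * Q43.Cous.G z := by
    have h2 := Nat.totient_eq_mul_prod_factors (primorial z)
    have h3 : (primorial z).primeFactors = (Finset.range (z+1)).filter Nat.Prime := by
      ext p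
      rw [Nat.mem_primeFactors, Finset.mem_filter, Finset.mem_range]
      constructor
      · rintro ⟨hp, hpd, -⟩
        have := prime_dvd_primorial hp hpd
        exact ⟨by omega, hp⟩
      · rintro ⟨hpz, hp⟩
        exact ⟨hp, Q43.Cous.dvd_primorial' hp (by omega), hM.ne'⟩
    rw [h3] at h2
    have h4 : ((Nat.totient (primorial z) : ℚ) : ℝ) = (((primorial z : ℕ) : ℚ) *
      ∏ p ∈ (Finset.range (z+1)).filter Nat.Prime, (1 - (p:ℚ)⁻¹) : ℚ) := by rw [h2]
    push_cast at h4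
    rw [h4, Q43.Cous.G]
  have hG := Q43.Cous.G_pos z
  rw [h1, div_le_iff₀ (by positivity)]
  have h5 := Q43.Cous.G_bound' z hz
  have h6 : 1 ≤ Real.sqrt (3 * z) * Q43.Cous.G z := by
    have h7 : (Real.sqrt (3 * z) * Q43.Cous.G z)^2 = (Q43.Cous.G z)^2 * (3 * z) := by
      rw [mul_pow, Real.sq_sqrt (by positivity)]
      ring
    have h8 : (1:ℝ)^2 ≤ (Real.sqrt (3 * z) * Q43.Cous.G z)^2 := by
      rw [h7]; simpa using h5
    exact (abs_le_of_sq_le_sq' h8 (by positivity)).2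
  calc (primorial z : ℝ) = primorial z * 1 := by ring
    _ ≤ primorial z * (Real.sqrt (3 * z) * Q43.Cous.G z) := by gcongr
    _ = _ := by ring

lemma coprime_of_Fr {D : Finset ℕ} {z r d : ℕ} (h : Fr D z r) (hd : d ∈ D) :
    Nat.Coprime (r + d) (primorial z) := by
  by_contra hcon
  obtain ⟨p, hp, h1, h2⟩ := Nat.Prime.not_coprime_iff_dvd.mp hcon
  exact h p hp (prime_dvd_primorial hp h2) d hd h1

lemma bad_count {D : Finset ℕ} {n z H d : ℕ} (hd : d ∈ D) (hH : H + d ≤ 4 * n^2) {B : ℝ}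
    (hB : ∀ r, Nat.Coprime r (primorial z) →
      (((win n (primorial z) r).filter (fun m => ¬ Nat.Coprime m (Nat.totient m))).card : ℝ) ≤ B) :
    ((((Finset.Ioc (n^3) (n^3+H)).filter (fun c => Fr D z c ∧
      ¬ Nat.Coprime (c+d) (Nat.totient (c+d)))).card : ℝ)) ≤ Ad D z * B := by
  set S := (Finset.Ioc (n^3) (n^3+H)).filter (fun c => Fr D z c ∧
      ¬ Nat.Coprime (c+d) (Nat.totient (c+d))) with hS
  have hfib : S.card = ∑ r ∈ (Finset.range (primorial z)).filter (Fr D z),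
      (S.filter (fun c => c % primorial z = r)).card := by
    apply Finset.card_eq_sum_card_fiberwise
    intro c hc
    have hc' : c ∈ S := hc
    rw [hS, Finset.mem_filter] at hc'
    rw [Finset.mem_coe, Finset.mem_filter, Finset.mem_range]
    exact ⟨Nat.mod_lt _ (primorial_pos z), (Fr_mod D z c).mp hc'.2.1⟩
  have h1 : ∀ r ∈ (Finset.range (primorial z)).filter (Fr D z),
      ((S.filter (fun c => c % primorial z = r)).card : ℝ) ≤ B := by
    intro r hr
    rw [Finset.mem_filter, Finset.mem_range] at hr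
    refine le_trans ?_ (hB (r+d) (coprime_of_Fr hr.2 hd))
    have h2 : (S.filter (fun c => c % primorial z = r)).card ≤
        ((win n (primorial z) (r+d)).filter (fun m => ¬ Nat.Coprime m (Nat.totient m))).card := by
      apply Finset.card_le_card_of_injOn (fun c => c + d)
      · intro c hc
        have hc' : c ∈ S.filter (fun c => c % primorial z = r) := hc
        rw [Finset.mem_filter, hS, Finset.mem_filter, Finset.mem_Ioc] at hc'
        obtain ⟨⟨h3, h4, h5⟩, h6⟩ := hc'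
        rw [Finset.mem_coe, Finset.mem_filter, mem_win]
        refine ⟨⟨⟨?_, ?_⟩, ?_⟩, h5⟩
        · show n^3 < c + d
          omega
        · show c + d ≤ n^3 + 4 * n^2
          omega
        · apply Nat.ModEq.add_right
          rw [Nat.ModEq, h6, Nat.mod_eq_of_lt hr.1]
      · intro c _ c' _ h
        simp only at h
        omega
    exact_mod_cast h2
  have hcast : (S.card : ℝ) = ∑ r ∈ (Finset.range (primorial z)).filter (Fr D z),
      ((S.filter (fun c => c % primorial z = r)).card : ℝ) := by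
    rw [hfib]
    push_cast
    rfl
  rw [hcast]
  have h2 := Finset.sum_le_card_nsmul _ _ _ h1
  rw [nsmul_eq_mul] at h2
  exact h2

lemma lower_gen {D : Finset ℕ} {n z H : ℕ} (hH : ∀ d ∈ D, H + d ≤ 4 * n^2) {B : ℝ}
    (hB : ∀ r, Nat.Coprime r (primorial z) →
      (((win n (primorial z) r).filter (fun m => ¬ Nat.Coprime m (Nat.totient m))).card : ℝ) ≤ B) :
    del D z * ((H:ℝ) - primorial z - D.card * (primorial z * B)) ≤ ((PC D (n^3) H).card : ℝ) := by
  have hsub : (Finset.Ioc (n^3) (n^3+H)).filter (Fr D z) ⊆ PC D (n^3) H ∪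
      D.biUnion (fun d => (Finset.Ioc (n^3) (n^3+H)).filter (fun c => Fr D z c ∧
      ¬ Nat.Coprime (c+d) (Nat.totient (c+d)))) := by
    intro c hc
    rw [Finset.mem_filter] at hc
    rw [Finset.mem_union]
    by_cases h : ∀ d ∈ D, Nat.Coprime (c+d) (Nat.totient (c+d))
    · left
      rw [PC, Finset.mem_filter]
      exact ⟨hc.1, h⟩
    · right
      push Not at h
      obtain ⟨d, hd, h2⟩ := h
      rw [Finset.mem_biUnion]
      refine ⟨d, hd, ?_⟩
      rw [Finset.mem_filter]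
      exact ⟨hc.1, hc.2, h2⟩
  have h1 := (Finset.card_le_card hsub).trans ((Finset.card_union_le _ _).trans
    (Nat.add_le_add_left Finset.card_biUnion_le _))
  have h2 : ((((Finset.Ioc (n^3) (n^3+H)).filter (Fr D z)).card : ℝ)) ≤ ((PC D (n^3) H).card : ℝ) +
      ∑ d ∈ D, ((((Finset.Ioc (n^3) (n^3+H)).filter (fun c => Fr D z c ∧
      ¬ Nat.Coprime (c+d) (Nat.totient (c+d)))).card : ℝ)) := by exact_mod_cast h1
  have h3 := Finset.sum_le_card_nsmul _ _ _ (fun d (hd : d ∈ D) => bad_count hd (hH d hd) hB)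
  rw [nsmul_eq_mul] at h3
  have h4 := (window_count D z (n^3) H).1
  have hMz : (0:ℝ) < primorial z := by exact_mod_cast primorial_pos z
  have h5 : del D z * ((H:ℝ) - primorial z - D.card * (primorial z * B)) =
      (Ad D z : ℝ) * ((H:ℝ) / primorial z - 1) - D.card * (Ad D z * B) := by
    unfold del
    field_simp
  rw [h5]
  linarith

/-- The scale `z`. -/
lemma lower_aux {C : ℝ} (hC : 0 < C)
    (hbt : ∀ q l : ℕ, 1 ≤ q →
      (((Finset.Ico (2 ^ l) (2 ^ (l + 1))).filter (fun k => (q * k + 1).Prime)).card : ℝ) ≤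
        C * ((q : ℝ) / (Nat.totient q)) * 2 ^ l / ((l : ℝ) + 1))
    {n L l r e z : ℕ} (hn1 : 2 ^ L ≤ n) (hn2 : n < 2 ^ (L+1)) (hL1 : 2 ^ l ≤ L) (hL2 : L < 2 ^ (l+1))
    (hl1 : 2 ^ r ≤ l) (hl2 : l < 2 ^ (r+1)) (hr1 : 2 ^ e ≤ r) (hr2 : r < 2 ^ (e+1))
    (hr : 4 ≤ r) (hz : z = 2 ^ (r + e)) :
    ∃ B : ℝ, (∀ v, Nat.Coprime v (primorial z) →
      (((win n (primorial z) v).filter (fun m => ¬ Nat.Coprime m (Nat.totient m))).card : ℝ) ≤ B) ∧
      (primorial z : ℝ) ≤ (n:ℝ)^2 / r ∧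
      (primorial z : ℝ) * B ≤ (n:ℝ)^2 * ((22561 + 128 * C) / r) := by
  -- sizes
  have hrl : r ≤ l := (Nat.lt_two_pow_self).le.trans hl1
  have hl16 : 16 ≤ l := by
    have : 2^4 ≤ 2^r := Nat.pow_le_pow_right (by norm_num) hr
    omega
  have hlL : l ≤ L := (Nat.lt_two_pow_self).le.trans hL1
  have hLn : L ≤ n := (Nat.lt_two_pow_self).le.trans hn1
  have hz1 : z ≤ l * l := by
    calc z = 2^r * 2^e := by rw [hz, pow_add]
      _ ≤ l * r := Nat.mul_le_mul hl1 hr1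
      _ ≤ l * l := Nat.mul_le_mul_left _ hrl
  have hz4 : l * r ≤ 4 * z := by
    calc l * r ≤ 2^(r+1) * 2^(e+1) := Nat.mul_le_mul hl2.le hr2.le
      _ = 4 * z := by rw [hz, pow_add, pow_add, pow_add]; ring
  have hz16 : 16 ≤ z := by nlinarith
  -- big
  have hbig : 16 * (4 * primorial z * (L+1)^2)^4 ≤ n := by
    have h1 : primorial z ≤ 2 ^ (2 * z) := by
      rw [pow_mul]
      exact primorial_le_four_pow z
    have h2 : L + 1 ≤ 2 ^ (l+1) := hL2
    have h3 : 4 * primorial z * (L+1)^2 ≤ 2 ^ (2 * z + 2 * l + 4) := by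
      calc 4 * primorial z * (L+1)^2 ≤ 4 * 2 ^ (2 * z) * (2 ^ (l+1))^2 :=
            Nat.mul_le_mul (Nat.mul_le_mul_left _ h1) (Nat.pow_le_pow_left h2 2)
        _ = 2 ^ (2 * z + 2 * l + 4) := by
          rw [← pow_mul, show 4 = 2^2 by norm_num, ← pow_add, ← pow_add]
          congr 1
          ring
    have h4 : 8 * (l * l) + 8 * l + 20 ≤ 2 ^ l := by
      have h5 : ∀ t : ℕ, 16 ≤ t → 8 * (t * t) + 8 * t + 20 ≤ 2 ^ t := by
        intro t ht
        induction t, ht using Nat.le_induction with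
        | base => norm_num
        | succ t ht ih =>
          rw [pow_succ]
          nlinarith
      exact h5 l hl16
    calc 16 * (4 * primorial z * (L+1)^2)^4 ≤ 16 * (2 ^ (2 * z + 2 * l + 4))^4 :=
          Nat.mul_le_mul_left _ (Nat.pow_le_pow_left h3 4)
      _ = 2 ^ (8 * z + 8 * l + 20) := by
        rw [← pow_mul, show 16 = 2^4 by norm_num, ← pow_add]
        congr 1
        ring
      _ ≤ 2 ^ L := Nat.pow_le_pow_right (by norm_num) (by omega)
      _ ≤ n := hn1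
  have hM := primorial_pos z
  have hs4 : n ≤ 4 * Nat.sqrt n * Nat.sqrt n := by
    have h1 := Nat.lt_succ_sqrt n
    have h2 : 1 ≤ Nat.sqrt n := by
      rw [Nat.le_sqrt]
      omega
    simp only [Nat.succ_eq_add_one] at h1
    nlinarith
  have hn16 : 16 ≤ n := by omega
  have hpar : Par n (Nat.sqrt n) z (primorial z) ((L+1)^2) (Real.sqrt (3 * z)) := by
    refine ⟨by omega, hn16, Nat.sqrt_le n, hs4, hM, fun p hp h => Q43.Cous.dvd_primorial' hp h,
      primorial_ratio (by omega), ?_, ?_⟩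
    · calc z ≤ l * l := hz1
        _ ≤ L * L := Nat.mul_le_mul hlL hlL
        _ ≤ (L+1)^2 := by nlinarith
    · have h3 : n * (16 * (4 * primorial z * (L+1)^2)^4) ≤ 16 * (Nat.sqrt n)^4 := by
        calc n * (16 * (4 * primorial z * (L+1)^2)^4) ≤ n * n := Nat.mul_le_mul_left _ hbig
          _ ≤ (4 * Nat.sqrt n * Nat.sqrt n) * (4 * Nat.sqrt n * Nat.sqrt n) :=
            Nat.mul_le_mul hs4 hs4
          _ = _ := by ring
      nlinarith
  have hQ : n * Nat.sqrt n ≤ 2 ^ (2 * (L+1)) := by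
    calc n * Nat.sqrt n ≤ n * n := Nat.mul_le_mul_left _ (Nat.sqrt_le_self n)
      _ ≤ 2 ^ (L+1) * 2 ^ (L+1) := Nat.mul_le_mul hn2.le hn2.le
      _ = 2 ^ (2 * (L+1)) := by rw [← pow_add]; congr 1; ring
  -- the size of sqrt n
  have hsq : (4 * primorial z * (L+1)^2)^2 ≤ Nat.sqrt n := by
    rw [Nat.le_sqrt']
    calc ((4 * primorial z * (L+1)^2)^2)^2 = (4 * primorial z * (L+1)^2)^4 := by rw [← pow_mul]
      _ ≤ 16 * (4 * primorial z * (L+1)^2)^4 := by omega
      _ ≤ n := hbig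
  have hsq2 : 71 * primorial z * (L+1) * r ≤ Nat.sqrt n := by
    refine le_trans ?_ hsq
    have h1 : r ≤ L + 1 := by omega
    calc 71 * primorial z * (L+1) * r ≤ 71 * primorial z * (L+1) * (L+1) := Nat.mul_le_mul_left _ h1
      _ = primorial z * (L+1)^2 * 71 := by ring
      _ ≤ primorial z * (L+1)^2 * (16 * (primorial z * (L+1)^2)) := by
        apply Nat.mul_le_mul_left
        have : 5 ≤ (L+1)^2 := by nlinarith
        nlinarith
      _ = _ := by ring
  refine ⟨4 * n^2 / (primorial z : ℝ) * (((1 + 2 * C * (1 + Real.log ((2 * (L+1) : ℕ):ℝ))) +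
      1408 * Real.sqrt (3 * z)) * (z:ℝ)⁻¹ + 4 * Real.log n * ((((L+1)^2 : ℕ)):ℝ)⁻¹) +
      71 * (n * (Nat.sqrt n : ℝ)) * Real.log n, ?_, ?_, ?_⟩
  · intro v hv
    exact bad_le hC hbt hpar hv hQ
  · -- M r ≤ n^2
    have hr0 : (0:ℝ) < r := by exact_mod_cast (by omega : 0 < r)
    rw [le_div_iff₀ hr0]
    have h1 : primorial z * r ≤ n^2 := by
      have h2 : primorial z * r ≤ 71 * primorial z * (L+1) * r := by
        apply Nat.mul_le_mul_right
        nlinarith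
      have h3 := Nat.sqrt_le_self n
      nlinarith
    exact_mod_cast h1
  · have hr0 : (0:ℝ) < r := by exact_mod_cast (by omega : 0 < r)
    have hl0 : (0:ℝ) < l := by exact_mod_cast (by omega : 0 < l)
    have hz0 : (0:ℝ) < z := by exact_mod_cast (by omega : 0 < z)
    have hL0 : (0:ℝ) < (L:ℝ) + 1 := by positivity
    have hM0 : (0:ℝ) < primorial z := by exact_mod_cast hM
    have hzr : (l:ℝ) * r ≤ 4 * z := by exact_mod_cast hz4
    have hrlR : (r:ℝ) ≤ l := by exact_mod_cast hrl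
    have hlog2 := Real.log_two_lt_d9
    have hlog2' := Real.log_two_gt_d9
    have hl16R : (16:ℝ) ≤ l := by exact_mod_cast hl16
    have e1 : Real.log ((2 * (L+1) : ℕ):ℝ) ≤ l + 2 := by
      have h1 : ((2 * (L+1) : ℕ):ℝ) ≤ 2 ^ (l+2) := by
        have : 2 * (L+1) ≤ 2 ^ (l+2) := by rw [pow_succ]; omega
        exact_mod_cast this
      have h2 := Real.log_le_log (by positivity) h1
      rw [Real.log_pow] at h2
      push_cast at h2
      have h3 : ((l:ℝ)+2) * Real.log 2 ≤ ((l:ℝ)+2) * 1 := by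
        apply mul_le_mul_of_nonneg_left _ (by positivity)
        linarith
      push_cast
      linarith
    have e2 : (z:ℝ)⁻¹ ≤ 4 / (l * r) := by
      rw [inv_eq_one_div, div_le_div_iff₀ hz0 (by positivity)]
      linarith
    have e3 : (1 + 2 * C * (1 + Real.log ((2 * (L+1) : ℕ):ℝ))) * (z:ℝ)⁻¹ ≤ (4 + 32 * C) / r := by
      have h1 : (1 + 2 * C * (1 + Real.log ((2 * (L+1) : ℕ):ℝ))) ≤ (1 + 8 * C) * l := by
        have h2 : 2 * C * (1 + Real.log ((2 * (L+1) : ℕ):ℝ)) ≤ 2 * C * (4 * l) := by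
          gcongr
          linarith
        linarith
      calc (1 + 2 * C * (1 + Real.log ((2 * (L+1) : ℕ):ℝ))) * (z:ℝ)⁻¹ ≤ ((1 + 8 * C) * l) * (4 / (l * r)) := by
            apply mul_le_mul h1 e2 (by positivity) (by positivity)
        _ = (4 + 32 * C) / r := by
          field_simp
          ring
    have e4 : 1408 * Real.sqrt (3 * z) * (z:ℝ)⁻¹ ≤ 5632 / r := by
      have h1 : Real.sqrt (3 * z) ≤ 2 * Real.sqrt z := by
        rw [Real.sqrt_le_left (by positivity), mul_pow, Real.sq_sqrt hz0.le]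
        linarith
      have h2 : (r:ℝ) / 2 ≤ Real.sqrt z := by
        apply Real.le_sqrt_of_sq_le
        nlinarith
      have h3 : 0 < Real.sqrt z := Real.sqrt_pos.mpr hz0
      have h4 : (z:ℝ)⁻¹ = (Real.sqrt z)⁻¹ * (Real.sqrt z)⁻¹ := by
        rw [← mul_inv, Real.mul_self_sqrt hz0.le]
      calc 1408 * Real.sqrt (3 * z) * (z:ℝ)⁻¹ ≤ 1408 * (2 * Real.sqrt z) * (z:ℝ)⁻¹ := by gcongr
        _ = 2816 * (Real.sqrt z)⁻¹ := by
          rw [h4]
          field_simp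
          norm_num
        _ ≤ 2816 * ((r:ℝ)/2)⁻¹ := by gcongr
        _ = _ := by field_simp; norm_num
    have hlogn : Real.log n ≤ (L:ℝ) + 1 := by
      have h1 : (n:ℝ) ≤ 2 ^ (L+1) := by exact_mod_cast hn2.le
      have h2 := Real.log_le_log (by positivity) h1
      rw [Real.log_pow] at h2
      push_cast at h2
      have h3 : ((L:ℝ)+1) * Real.log 2 ≤ ((L:ℝ)+1) * 1 := by
        apply mul_le_mul_of_nonneg_left _ (by positivity)
        linarith
      linarith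
    have hrL : (r:ℝ) ≤ (L:ℝ)+1 := by
      have : r ≤ L + 1 := by omega
      exact_mod_cast this
    have e5 : 4 * Real.log n * ((((L+1)^2 : ℕ)):ℝ)⁻¹ ≤ 4 / r := by
      calc 4 * Real.log n * ((((L+1)^2 : ℕ)):ℝ)⁻¹ ≤ 4 * ((L:ℝ) + 1) * ((((L+1)^2 : ℕ)):ℝ)⁻¹ := by gcongr
        _ = 4 / ((L:ℝ)+1) := by
          push_cast
          field_simp
        _ ≤ 4 / r := by
          apply div_le_div_of_nonneg_left (by norm_num) hr0 hrL
    have e6 : primorial z * (71 * (n * (Nat.sqrt n : ℝ)) * Real.log n) ≤ (n:ℝ)^2 / r := by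
      rw [le_div_iff₀ hr0]
      have h1 : (71:ℝ) * primorial z * (L+1) * r ≤ Nat.sqrt n := by exact_mod_cast hsq2
      have h2 : (Nat.sqrt n : ℝ) * Nat.sqrt n ≤ n := by exact_mod_cast Nat.sqrt_le n
      calc (primorial z : ℝ) * (71 * (n * (Nat.sqrt n : ℝ)) * Real.log n) * r
          ≤ (primorial z : ℝ) * (71 * (n * (Nat.sqrt n : ℝ)) * ((L:ℝ) + 1)) * r := by gcongr
        _ = n * Nat.sqrt n * (71 * primorial z * (L+1) * r) := by ring
        _ ≤ n * Nat.sqrt n * Nat.sqrt n := by gcongr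
        _ = n * (Nat.sqrt n * Nat.sqrt n) := by ring
        _ ≤ n * n := by gcongr
        _ = (n:ℝ)^2 := by ring
    have e7 : primorial z * (4 * n^2 / (primorial z : ℝ) * (((1 + 2 * C * (1 + Real.log ((2 * (L+1) : ℕ):ℝ))) +
      1408 * Real.sqrt (3 * z)) * (z:ℝ)⁻¹ + 4 * Real.log n * ((((L+1)^2 : ℕ)):ℝ)⁻¹)) =
      4 * (n:ℝ)^2 * (((1 + 2 * C * (1 + Real.log ((2 * (L+1) : ℕ):ℝ))) * (z:ℝ)⁻¹ +
      1408 * Real.sqrt (3 * z) * (z:ℝ)⁻¹) + 4 * Real.log n * ((((L+1)^2 : ℕ)):ℝ)⁻¹) := by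
      field_simp
    rw [mul_add, e7]
    have e8 : 4 * (n:ℝ)^2 * (((1 + 2 * C * (1 + Real.log ((2 * (L+1) : ℕ):ℝ))) * (z:ℝ)⁻¹ +
      1408 * Real.sqrt (3 * z) * (z:ℝ)⁻¹) + 4 * Real.log n * ((((L+1)^2 : ℕ)):ℝ)⁻¹) ≤
      4 * (n:ℝ)^2 * (((4 + 32 * C) / r + 5632 / r) + 4 / r) := by gcongr
    refine (add_le_add e8 e6).trans (le_of_eq ?_)
    field_simp
    ring

/-- **Lower bound.** -/
theorem lower : ∃ K : ℝ, 0 ≤ K ∧ ∃ N : ℕ, ∀ n : ℕ, N ≤ n → ∀ (D : Finset ℕ) (H : ℕ), D.card ≤ 2 →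
    (∀ d ∈ D, H + d ≤ 4 * n^2) → 3 * n^2 ≤ H →
    del D (2 ^ (Nat.log 2 (Nat.log 2 (Nat.log 2 n)) + Nat.log 2 (Nat.log 2 (Nat.log 2 (Nat.log 2 n))))) *
      (3 * (n:ℝ)^2 * (1 - K / (Nat.log 2 (Nat.log 2 (Nat.log 2 n)) : ℝ))) ≤
      ((PC D (n^3) H).card : ℝ) := by
  obtain ⟨C, hC, hbt⟩ := Pool.Agent.H692R2.USS.bt
  refine ⟨1 + 2 * (22561 + 128 * C), by positivity, 2 ^ (2 ^ (2^4)), ?_⟩
  intro n hn D H hD hH hH3
  obtain ⟨L, hL⟩ : ∃ L, L = Nat.log 2 n := ⟨_, rfl⟩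
  obtain ⟨l, hl⟩ : ∃ l, l = Nat.log 2 L := ⟨_, rfl⟩
  obtain ⟨r, hr⟩ : ∃ r, r = Nat.log 2 l := ⟨_, rfl⟩
  obtain ⟨e, he⟩ : ∃ e, e = Nat.log 2 r := ⟨_, rfl⟩
  rw [← hL, ← hl, ← hr, ← he]
  have hn0 : n ≠ 0 := by
    have : 1 ≤ 2 ^ (2 ^ (2^4)) := Nat.one_le_two_pow
    omega
  have hL1 : 2 ^ (2^4) ≤ L := by
    rw [hL]
    exact (Nat.le_log_iff_pow_le (by norm_num) hn0).mpr hn
  have hL0 : L ≠ 0 := by
    have : 1 ≤ 2 ^ (2^4) := Nat.one_le_two_pow
    omega
  have hl1 : 2^4 ≤ l := by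
    rw [hl]
    exact (Nat.le_log_iff_pow_le (by norm_num) hL0).mpr hL1
  have hl0 : l ≠ 0 := by omega
  have hr1 : 4 ≤ r := by
    rw [hr]
    exact (Nat.le_log_iff_pow_le (by norm_num) hl0).mpr hl1
  have hr0 : r ≠ 0 := by omega
  obtain ⟨B, hB, hB1, hB2⟩ := lower_aux hC hbt (n := n) (L := L) (l := l) (r := r) (e := e)
    (z := 2 ^ (r+e))
    (by rw [hL]; exact Nat.pow_log_le_self 2 hn0)
    (by rw [hL]; exact Nat.lt_pow_succ_log_self (by norm_num) n)
    (by rw [hl]; exact Nat.pow_log_le_self 2 hL0)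
    (by rw [hl]; exact Nat.lt_pow_succ_log_self (by norm_num) L)
    (by rw [hr]; exact Nat.pow_log_le_self 2 hl0)
    (by rw [hr]; exact Nat.lt_pow_succ_log_self (by norm_num) l)
    (by rw [he]; exact Nat.pow_log_le_self 2 hr0)
    (by rw [he]; exact Nat.lt_pow_succ_log_self (by norm_num) r) hr1 rfl
  refine le_trans ?_ (lower_gen hH hB)
  apply mul_le_mul_of_nonneg_left _ (del_nonneg _ _)
  have hD' : (D.card : ℝ) ≤ 2 := by exact_mod_cast hD
  have hH3' : 3 * (n:ℝ)^2 ≤ H := by exact_mod_cast hH3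
  have hr0' : (0:ℝ) < r := by exact_mod_cast (by omega : 0 < r)
  have h1 : (D.card : ℝ) * ((primorial (2^(r+e)) : ℝ) * B) ≤ 2 * ((n:ℝ)^2 * ((22561 + 128 * C) / r)) := by
    have h2 : 0 ≤ (n:ℝ)^2 * ((22561 + 128 * C) / r) := by positivity
    calc (D.card : ℝ) * ((primorial (2^(r+e)) : ℝ) * B) ≤ (D.card : ℝ) * ((n:ℝ)^2 * ((22561 + 128 * C) / r)) := by
          gcongr
      _ ≤ _ := by gcongr
  have h3 : 3 * (n:ℝ)^2 * (1 - (1 + 2 * (22561 + 128 * C)) / r) = 3 * (n:ℝ)^2 - 3 * ((n:ℝ)^2 / r) -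
      3 * (2 * ((n:ℝ)^2 * ((22561 + 128 * C) / r))) := by
    field_simp
    ring
  rw [h3]
  have h4 : 0 ≤ (n:ℝ)^2 / r := by positivity
  have h5 : 0 ≤ (n:ℝ)^2 * ((22561 + 128 * C) / r) := by positivity
  linarith

end Q43.Tw
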