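import Mathlib
import Pool.Agent.Q43.Tw.Lower

set_option autoImplicit false

/-!
# Asymptotics
-/

namespace Q43.Tw

open Finset Filter Topology
open scoped Classical Nat

lemma log_tendsto : Tendsto (Nat.log 2) atTop atTop := by
  rw [tendsto_atTop]
  intro b
  filter_upwards [eventually_ge_atTop (2^b)] with a ha
  have : 1 ≤ 2^b := Nat.one_le_two_pow
  exact (Nat.le_log_iff_pow_le (by norm_num) (by omega)).mpr ha

/-- `log log n` -/
def ll (n : ℕ) : ℕ := Nat.log 2 (Nat.log 2 n)
/-- `log log log n` -/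
def rr (n : ℕ) : ℕ := Nat.log 2 (ll n)

lemma ll_tendsto : Tendsto ll atTop atTop := log_tendsto.comp log_tendsto
lemma rr_tendsto : Tendsto rr atTop atTop := log_tendsto.comp ll_tendsto

lemma log_div_tendsto : Tendsto (fun r : ℕ => (Nat.log 2 r : ℝ) / r) atTop (𝓝 0) := by
  have h1 : Tendsto (fun x : ℝ => Real.log x / x) atTop (𝓝 0) := by
    have := Real.isLittleO_log_id_atTop.tendsto_div_nhds_zero
    exact this
  have h2 := (h1.comp (tendsto_natCast_atTop_atTop (R := ℝ))).const_mul (Real.log 2)⁻¹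
  rw [mul_zero] at h2
  refine squeeze_zero (fun r => by positivity) ?_ h2
  intro r
  have h3 := Real.natLog_le_logb r 2
  simp only [Function.comp]
  have h4 : Real.logb 2 r = (Real.log 2)⁻¹ * Real.log r := by
    rw [Real.logb]
    field_simp
  push_cast at h3
  rw [h4] at h3
  calc (Nat.log 2 r : ℝ) / r ≤ ((Real.log 2)⁻¹ * Real.log r) / r := by gcongr
    _ = _ := by ring

/-- lower scale -/
def yy (K r : ℕ) : ℕ := 2 ^ (r - K * Nat.log 2 r)
/-- upper scale -/
def zz (r : ℕ) : ℕ := 2 ^ (r + Nat.log 2 r)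

lemma eventually_K (K : ℕ) (η : ℝ) (hη : 0 < η) : ∀ᶠ r : ℕ in atTop, (K:ℝ) * Nat.log 2 r ≤ η * r := by
  have h := log_div_tendsto.const_mul (K:ℝ)
  rw [mul_zero] at h
  filter_upwards [h.eventually (gt_mem_nhds hη), eventually_gt_atTop 0] with r hr hr0
  have hr0' : (0:ℝ) < r := by exact_mod_cast hr0
  rw [← mul_div_assoc, div_lt_iff₀ hr0'] at hr
  exact hr.le

lemma scale_ratio {g : ℕ} (hg : 2 ∣ g) (K : ℕ) :
    Tendsto (fun r => del {0, g} (zz r) / del {0, g} (yy K r)) atTop (𝓝 1) := by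
  obtain ⟨C, hC1, h⟩ := rp_block
  have hup : ∀ r, del {0, g} (zz r) / del {0, g} (yy K r) ≤ 1 := by
    intro r
    rw [div_le_one (del_pos hg _)]
    apply del_antitone
    unfold zz yy
    exact Nat.pow_le_pow_right (by norm_num) (by omega)
  have hlow : ∀ᶠ r : ℕ in atTop, 1 - 4 * C * (K+1) * ((Nat.log 2 r : ℝ) / r) ≤
      del {0, g} (zz r) / del {0, g} (yy K r) := by
    filter_upwards [eventually_K K (1/2) (by norm_num), eventually_gt_atTop 0] with r hr hr0
    have hr0' : (0:ℝ) < r := by exact_mod_cast hr0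
    have hle : K * Nat.log 2 r ≤ r := by
      have : ((K * Nat.log 2 r : ℕ) : ℝ) ≤ r := by
        push_cast
        linarith
      exact_mod_cast this
    rw [le_div_iff₀ (del_pos hg _), mul_comm]
    have h1 := del_ratio' {0, g} (show yy K r ≤ zz r by
      unfold zz yy
      exact Nat.pow_le_pow_right (by norm_num) (by omega))
    refine le_trans ?_ h1
    apply mul_le_mul_of_nonneg_left _ (del_nonneg _ _)
    have h2 := rp_blocks (by linarith) h (r - K * Nat.log 2 r) ((K+1) * Nat.log 2 r)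
    have h3 : r - K * Nat.log 2 r + (K+1) * Nat.log 2 r = r + Nat.log 2 r := by
      rw [Nat.add_mul]
      omega
    rw [h3] at h2
    have hcard : (({0, g} : Finset ℕ).card : ℝ) ≤ 2 := by exact_mod_cast Finset.card_le_two
    have h4 : rp (yy K r) (zz r) ≤ 2 * C * (K+1) * ((Nat.log 2 r : ℝ) / r) := by
      unfold yy zz
      refine h2.trans ?_
      push_cast [Nat.cast_sub hle]
      have h5 : (r:ℝ)/2 ≤ (r:ℝ) - K * Nat.log 2 r + 1 := by linarith
      have hpos : (0:ℝ) < r/2 := by positivity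
      calc C * (((K:ℝ)+1) * Nat.log 2 r) / ((r:ℝ) - K * Nat.log 2 r + 1) ≤
          C * (((K:ℝ)+1) * Nat.log 2 r) / (r/2) := by
            apply div_le_div_of_nonneg_left (by positivity) hpos h5
        _ = _ := by field_simp
    have h5 := rp_nonneg (yy K r) (zz r)
    have h6 : (({0, g} : Finset ℕ).card : ℝ) * rp (yy K r) (zz r) ≤
        2 * (2 * C * (K+1) * ((Nat.log 2 r : ℝ) / r)) := by gcongr
    linarith
  have hlim : Tendsto (fun r : ℕ => 1 - 4 * C * (K+1) * ((Nat.log 2 r : ℝ) / r)) atTop (𝓝 1) := by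
    have := (log_div_tendsto.const_mul (4 * C * (K+1))).const_sub 1
    simpa using this
  exact tendsto_of_tendsto_of_tendsto_of_le_of_le' hlim tendsto_const_nhds hlow
    (Eventually.of_forall hup)

lemma ll_bounds {n : ℕ} (h : 2 ≤ rr n) (K : ℕ) : yy K (rr n) ≤ ll n ∧ ll n ≤ zz (rr n) := by
  have hl0 : ll n ≠ 0 := by
    intro h0
    unfold rr at h
    rw [h0] at h
    simp at h
  have h1 : 2 ^ (rr n) ≤ ll n := Nat.pow_log_le_self 2 hl0
  have h2 : ll n < 2 ^ (rr n + 1) := Nat.lt_pow_succ_log_self (by norm_num) (ll n)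
  constructor
  · refine le_trans ?_ h1
    unfold yy
    exact Nat.pow_le_pow_right (by norm_num) (by omega)
  · refine h2.le.trans ?_
    unfold zz
    apply Nat.pow_le_pow_right (by norm_num)
    have : 1 ≤ Nat.log 2 (rr n) := (Nat.le_log_iff_pow_le (by norm_num) (by omega)).mpr (by omega)
    omega

lemma ratio_yz {g : ℕ} (hg : 2 ∣ g) (K : ℕ) :
    Tendsto (fun n => del {0, g} (yy K (rr n)) / del {0, g} (ll n)) atTop (𝓝 1) ∧
    Tendsto (fun n => del {0, g} (zz (rr n)) / del {0, g} (ll n)) atTop (𝓝 1) := by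
  have h := (scale_ratio hg K).comp rr_tendsto
  have hinv := h.inv₀ one_ne_zero
  rw [inv_one] at hinv
  constructor
  · refine tendsto_of_tendsto_of_tendsto_of_le_of_le' tendsto_const_nhds hinv ?_ ?_
    · filter_upwards [rr_tendsto.eventually_ge_atTop 2] with n hn
      rw [le_div_iff₀ (del_pos hg _), one_mul]
      exact del_antitone _ (ll_bounds hn K).1
    · filter_upwards [rr_tendsto.eventually_ge_atTop 2] with n hn
      simp only [Function.comp, inv_div]
      apply div_le_div_of_nonneg_left (del_nonneg _ _) (del_pos hg _)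
      exact del_antitone _ (ll_bounds hn K).2
  · refine tendsto_of_tendsto_of_tendsto_of_le_of_le' h tendsto_const_nhds ?_ ?_
    · filter_upwards [rr_tendsto.eventually_ge_atTop 2] with n hn
      simp only [Function.comp]
      apply div_le_div_of_nonneg_left (del_nonneg _ _) (del_pos hg _)
      exact del_antitone _ (ll_bounds hn K).1
    · filter_upwards [rr_tendsto.eventually_ge_atTop 2] with n hn
      rw [div_le_one (del_pos hg _)]
      exact del_antitone _ (ll_bounds hn K).2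

/-- The error of the upper bound is negligible. -/
lemma err_upper : ∃ K : ℕ, ∀ g : ℕ, 2 ∣ g →
    Tendsto (fun n => ((yy K (rr n) : ℝ) / ll n) / del {0, g} (ll n)) atTop (𝓝 0) := by
  obtain ⟨m, hm⟩ := del_lower
  refine ⟨m + 1, ?_⟩
  intro g hg
  obtain ⟨c, hc, i0, hi⟩ := hm g hg
  have hlim : Tendsto (fun n => (2^(m+1) * 3^m / c) * ((rr n : ℝ))⁻¹) atTop (𝓝 0) := by
    have h1 : Tendsto (fun n => ((rr n : ℕ) : ℝ)) atTop atTop :=
      (tendsto_natCast_atTop_atTop (R := ℝ)).comp rr_tendsto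
    have := (tendsto_inv_atTop_zero.comp h1).const_mul (2^(m+1) * 3^m / c)
    simpa using this
  have hnn : ∀ n, 0 ≤ ((yy (m+1) (rr n) : ℝ) / ll n) / del {0, g} (ll n) := fun n => by
    have := del_nonneg {0, g} (ll n)
    positivity
  refine squeeze_zero' (Eventually.of_forall hnn) ?_ hlim
  filter_upwards [rr_tendsto.eventually_ge_atTop 2, rr_tendsto.eventually_ge_atTop i0,
    rr_tendsto.eventually (eventually_K (m+1) 1 one_pos)] with n hn hn2 hn3
  obtain ⟨r, hr⟩ : ∃ r, r = rr n := ⟨_, rfl⟩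
  obtain ⟨e, he⟩ : ∃ e, e = Nat.log 2 r := ⟨_, rfl⟩
  have hb := ll_bounds hn (m+1)
  have hl0 : ll n ≠ 0 := by
    intro h0
    unfold rr at hn
    rw [h0] at hn
    simp at hn
  have h1 : 2 ^ (rr n) ≤ ll n := Nat.pow_log_le_self 2 hl0
  rw [← hr] at hn hn2 hn3 hb h1 ⊢
  rw [← he] at hn3
  have hr0 : (0:ℝ) < r := by exact_mod_cast (by omega : 0 < r)
  have hle : (m+1) * e ≤ r := by
    have : (((m+1) * e : ℕ) : ℝ) ≤ r := by
      push_cast at hn3 ⊢
      linarith
    exact_mod_cast this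
  have he1 : r < 2 ^ (e+1) := by rw [he]; exact Nat.lt_pow_succ_log_self (by norm_num) r
  have he2 : 2 ^ e ≤ r := by rw [he]; exact Nat.pow_log_le_self 2 (by omega)
  have her : e ≤ r := (Nat.lt_two_pow_self).le.trans he2
  -- the density is large
  have hd1 : c / (3 * (r:ℝ))^m ≤ del {0, g} (ll n) := by
    have h2 := hi (r + e) (by omega)
    have h3 : del {0, g} (zz r) ≤ del {0, g} (ll n) := del_antitone _ hb.2
    refine le_trans ?_ (h2.trans (by unfold zz at h3; rw [← he] at h3; exact h3))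
    have h4 : (((r + e : ℕ) : ℝ) + 1) ≤ 3 * r := by
      have : r + e + 1 ≤ 3 * r := by omega
      exact_mod_cast this
    gcongr
  -- y / l is small
  have hy : ((yy (m+1) r : ℝ) / ll n) ≤ (2 / r)^(m+1) := by
    have h2 : ((yy (m+1) r : ℕ) : ℝ) * (2^e)^(m+1) = 2^r := by
      unfold yy
      rw [← he]
      push_cast
      rw [← pow_mul, ← pow_add]
      congr 1
      rw [mul_comm e (m+1)]
      omega
    have h3 : (2:ℝ)^r ≤ ll n := by exact_mod_cast h1
    have hl0' : (0:ℝ) < ll n := lt_of_lt_of_le (by positivity) h3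
    have h4 : (r:ℝ) ≤ 2 * 2^e := by
      have : r ≤ 2 * 2^e := by rw [pow_succ] at he1; omega
      exact_mod_cast this
    rw [div_le_iff₀ hl0']
    have h5 : (1:ℝ) ≤ (2 / r)^(m+1) * (2^e)^(m+1) := by
      rw [← mul_pow]
      apply one_le_pow₀
      rw [div_mul_eq_mul_div, le_div_iff₀ hr0]
      linarith
    have h6 : (0:ℝ) < (2^e)^(m+1) := by positivity
    calc ((yy (m+1) r : ℕ) : ℝ) = ((yy (m+1) r : ℕ) : ℝ) * 1 := by ring
      _ ≤ ((yy (m+1) r : ℕ) : ℝ) * ((2 / r)^(m+1) * (2^e)^(m+1)) := by gcongr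
      _ = (2 / r)^(m+1) * (((yy (m+1) r : ℕ) : ℝ) * (2^e)^(m+1)) := by ring
      _ = (2 / r)^(m+1) * 2^r := by rw [h2]
      _ ≤ _ := by gcongr
  calc ((yy (m+1) r : ℝ) / ll n) / del {0, g} (ll n) ≤ (2 / r)^(m+1) / (c / (3 * (r:ℝ))^m) := by
        gcongr
    _ = (2^(m+1) * 3^m / c) * ((r : ℝ))⁻¹ := by
      rw [div_pow, mul_pow, pow_succ (r:ℝ)]
      field_simp

end Q43.Tw
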