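import Mathlib
import Pool.Agent.Q43.Tw.Asym

set_option autoImplicit false

/-!
# Main asymptotics for pairs and triples
-/

namespace Q43.Tw

open Finset Filter Topology
open scoped Classical Nat

/-- the length of the window -/
def HH (g n : ℕ) : ℕ := 3 * n^2 + 3 * n - g

/-- the main term -/
noncomputable def F (g n : ℕ) : ℝ := 3 * (n:ℝ)^2 * del {0, g} (ll n)

lemma F_pos {g : ℕ} (hg : 2 ∣ g) {n : ℕ} (hn : 1 ≤ n) : 0 < F g n := by
  unfold F
  have h1 : (0:ℝ) < n := by exact_mod_cast hn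
  have h2 := del_pos hg (ll n)
  positivity

lemma yy_tendsto (K : ℕ) : Tendsto (fun n => yy K (rr n)) atTop atTop := by
  have h : Tendsto (yy K) atTop atTop := by
    rw [tendsto_atTop]
    intro b
    filter_upwards [eventually_K K (1/2) (by norm_num), eventually_ge_atTop (2 * b)] with r hr hb
    have h1 : 2 * (K * Nat.log 2 r) ≤ r := by
      have : ((2 * (K * Nat.log 2 r) : ℕ) : ℝ) ≤ r := by
        push_cast
        linarith
      exact_mod_cast this
    have h2 : b ≤ r - K * Nat.log 2 r := by omega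
    have h3 : b < 2 ^ b := Nat.lt_two_pow_self
    have h4 : 2 ^ b ≤ 2 ^ (r - K * Nat.log 2 r) := Nat.pow_le_pow_right (by norm_num) h2
    unfold yy
    omega
  exact h.comp rr_tendsto

lemma primorial_small : ∃ N : ℕ, ∀ n : ℕ, N ≤ n → ∀ y : ℕ, y ≤ ll n → primorial y ≤ n := by
  refine ⟨2 ^ (2 ^ 4), ?_⟩
  intro n hn y hy
  have hn0 : n ≠ 0 := by
    have : 1 ≤ 2 ^ (2 ^ 4) := Nat.one_le_two_pow
    omega
  obtain ⟨L, hL⟩ : ∃ L, L = Nat.log 2 n := ⟨_, rfl⟩
  have hL1 : 2 ^ 4 ≤ L := by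
    rw [hL]
    exact (Nat.le_log_iff_pow_le (by norm_num) hn0).mpr hn
  have hL0 : L ≠ 0 := by omega
  have hn1 : 2 ^ L ≤ n := by rw [hL]; exact Nat.pow_log_le_self 2 hn0
  unfold ll at hy
  rw [← hL] at hy
  have hL2 : 2 ^ (Nat.log 2 L) ≤ L := Nat.pow_log_le_self 2 hL0
  have h1 : ∀ t : ℕ, 16 ≤ t → t * t ≤ 2 ^ t := by
    intro t ht
    induction t, ht using Nat.le_induction with
    | base => norm_num
    | succ t ht ih =>
      rw [pow_succ]
      nlinarith
  calc primorial y ≤ 4 ^ y := primorial_le_four_pow y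
    _ ≤ 4 ^ (Nat.log 2 L) := Nat.pow_le_pow_right (by norm_num) hy
    _ = 2 ^ (Nat.log 2 L) * 2 ^ (Nat.log 2 L) := by
      rw [← mul_pow]
      norm_num
    _ ≤ L * L := Nat.mul_le_mul hL2 hL2
    _ ≤ 2 ^ L := h1 L (by omega)
    _ ≤ n := hn1

/-- upper bound in normalised form -/
lemma upper_norm {g : ℕ} (hg : 2 ∣ g) (K : ℕ) : ∀ᶠ n : ℕ in atTop, ∀ D : Finset ℕ, D.card ≤ 3 →
    ((PC D (n^3) (HH g n)).card : ℝ) / F g n ≤
      (1 + 4/3 * (n:ℝ)⁻¹) * (del D (yy K (rr n)) / del {0, g} (ll n)) +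
        1536 * (((yy K (rr n) : ℝ) / ll n) / del {0, g} (ll n)) := by
  obtain ⟨N, hN⟩ := upper
  obtain ⟨N2, hN2⟩ := primorial_small
  filter_upwards [eventually_ge_atTop N, eventually_ge_atTop N2, eventually_ge_atTop 3,
    rr_tendsto.eventually_ge_atTop 2] with n h1 h2 h3 h4
  intro D hD
  have hb := (ll_bounds h4 K).1
  have hH : HH g n ≤ 4 * n^2 := by
    unfold HH
    have : 3 * n ≤ n^2 := by nlinarith
    omega
  have h := hN n h1 D (n^3) (HH g n) (yy K (rr n)) hb hH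
  have hp := hN2 n h2 _ hb
  have hn0 : (0:ℝ) < n := by exact_mod_cast (by omega : 0 < n)
  have hd := del_pos hg (ll n)
  have hdD := del_nonneg D (yy K (rr n))
  have hH' : ((HH g n : ℕ) : ℝ) + primorial (yy K (rr n)) ≤ 3 * (n:ℝ)^2 + 4 * n := by
    have : HH g n + primorial (yy K (rr n)) ≤ 3 * n^2 + 4 * n := by
      unfold HH
      omega
    exact_mod_cast this
  have hD' : (D.card : ℝ) ≤ 3 := by exact_mod_cast hD
  rw [div_le_iff₀ (F_pos hg (by omega))]
  have hq : 0 ≤ ((yy K (rr n) : ℝ) / ll n) := by positivity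
  have h5 : ((PC D (n^3) (HH g n)).card : ℝ) ≤ del D (yy K (rr n)) * (3 * (n:ℝ)^2 + 4 * n) +
      3 * (1536 * (n:ℝ)^2 * ((yy K (rr n) : ℝ) / ll n)) := by
    refine h.trans ?_
    change del D (yy K (rr n)) * (((HH g n : ℕ) : ℝ) + primorial (yy K (rr n))) +
      D.card * (1536 * (n:ℝ)^2 * ((yy K (rr n) : ℝ) / ll n)) ≤ _
    gcongr
  refine h5.trans (le_of_eq ?_)
  unfold F
  field_simp

lemma four_div_tendsto : Tendsto (fun n : ℕ => 1 + 4/3 * (n:ℝ)⁻¹) atTop (𝓝 1) := by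
  have := (tendsto_inv_atTop_zero.comp (tendsto_natCast_atTop_atTop (R := ℝ))).const_mul (4/3)
  have h2 := this.const_add 1
  simpa using h2

theorem PC_triple {e g : ℕ} (he : 0 < e) (heg : e < g) (hg : 2 ∣ g) :
    Tendsto (fun n => ((PC {0, e, g} (n^3) (HH g n)).card : ℝ) / F g n) atTop (𝓝 0) := by
  obtain ⟨K, hK⟩ := err_upper
  have h1 := (triple_ratio he heg hg).comp (yy_tendsto K)
  have h2 := (ratio_yz hg K).1
  have h3 := hK g hg
  have hlim : Tendsto (fun n : ℕ => (1 + 4/3 * (n:ℝ)⁻¹) * ((del {0, e, g} (yy K (rr n)) /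
      del {0, g} (yy K (rr n))) * (del {0, g} (yy K (rr n)) / del {0, g} (ll n))) +
        1536 * (((yy K (rr n) : ℝ) / ll n) / del {0, g} (ll n))) atTop (𝓝 0) := by
    have := (four_div_tendsto.mul (h1.mul h2)).add (h3.const_mul 1536)
    simpa using this
  refine squeeze_zero' ?_ ?_ hlim
  · filter_upwards [eventually_ge_atTop 1] with n hn
    have := F_pos hg hn
    positivity
  · filter_upwards [upper_norm hg K] with n hn
    refine (hn {0, e, g} Finset.card_le_three).trans (le_of_eq ?_)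
    have h4 := del_pos hg (yy K (rr n))
    have h5 := del_pos hg (ll n)
    have h6 : del {0, e, g} (yy K (rr n)) / del {0, g} (ll n) = (del {0, e, g} (yy K (rr n)) /
      del {0, g} (yy K (rr n))) * (del {0, g} (yy K (rr n)) / del {0, g} (ll n)) := by
      field_simp
    rw [h6]

theorem PC_pair {g : ℕ} (hg : 2 ∣ g) :
    Tendsto (fun n => ((PC {0, g} (n^3) (HH g n)).card : ℝ) / F g n) atTop (𝓝 1) := by
  obtain ⟨K, hK⟩ := err_upper
  have h2 := (ratio_yz hg K).1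
  have h2' := (ratio_yz hg K).2
  have h3 := hK g hg
  have hup : Tendsto (fun n : ℕ => (1 + 4/3 * (n:ℝ)⁻¹) * (del {0, g} (yy K (rr n)) / del {0, g} (ll n)) +
        1536 * (((yy K (rr n) : ℝ) / ll n) / del {0, g} (ll n))) atTop (𝓝 1) := by
    have := (four_div_tendsto.mul h2).add (h3.const_mul 1536)
    simpa using this
  obtain ⟨K', hK'0, N, hN⟩ := lower
  have hlow : Tendsto (fun n : ℕ => (del {0, g} (zz (rr n)) / del {0, g} (ll n)) *
      (1 - K' * ((rr n : ℝ))⁻¹)) atTop (𝓝 1) := by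
    have h4 : Tendsto (fun n => ((rr n : ℕ) : ℝ)) atTop atTop :=
      (tendsto_natCast_atTop_atTop (R := ℝ)).comp rr_tendsto
    have h5 := ((tendsto_inv_atTop_zero.comp h4).const_mul K').const_sub 1
    have := h2'.mul h5
    simpa using this
  refine tendsto_of_tendsto_of_tendsto_of_le_of_le' hlow hup ?_ ?_
  · filter_upwards [eventually_ge_atTop N, eventually_ge_atTop (g + 3)] with n h1 h4
    have hH : ∀ d ∈ ({0, g} : Finset ℕ), HH g n + d ≤ 4 * n^2 := by
      intro d hd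
      rw [Finset.mem_insert, Finset.mem_singleton] at hd
      have h5 : 3 * n ≤ n^2 := by nlinarith
      unfold HH
      rcases hd with rfl | rfl <;> omega
    have hH3 : 3 * n^2 ≤ HH g n := by
      unfold HH
      omega
    have h6 := hN n h1 {0, g} (HH g n) Finset.card_le_two hH hH3
    rw [le_div_iff₀ (F_pos hg (by omega))]
    refine le_trans (le_of_eq ?_) h6
    have h7 : (2 ^ (Nat.log 2 (Nat.log 2 (Nat.log 2 n)) +
        Nat.log 2 (Nat.log 2 (Nat.log 2 (Nat.log 2 n))))) = zz (rr n) := rfl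
    have h8 : ((Nat.log 2 (Nat.log 2 (Nat.log 2 n)) : ℕ) : ℝ) = (rr n : ℝ) := rfl
    rw [h7, h8]
    unfold F
    have h9 := del_pos hg (ll n)
    field_simp
  · filter_upwards [upper_norm hg K] with n hn
    exact hn {0, g} (Finset.card_le_two.trans (by norm_num))

/-! ### regular variation -/

lemma ll_le {n m k : ℕ} (hm : m ≤ 2^k * n) (hk : k ≤ Nat.log 2 n) (hn : 2 ≤ n) (hm0 : 2 ≤ m) :
    ll m ≤ ll n + 1 := by
  unfold ll
  obtain ⟨L, hL⟩ : ∃ L, L = Nat.log 2 n := ⟨_, rfl⟩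
  rw [← hL] at hk ⊢
  have h1 : n < 2 ^ (L+1) := by rw [hL]; exact Nat.lt_pow_succ_log_self (by norm_num) n
  have hL1 : 1 ≤ L := by
    rw [hL]
    exact (Nat.le_log_iff_pow_le (by norm_num) (by omega)).mpr (by omega)
  have h2 : Nat.log 2 m < L + k + 1 := by
    rw [Nat.log_lt_iff_lt_pow (by norm_num) (by omega)]
    calc m ≤ 2^k * n := hm
      _ < 2^k * 2^(L+1) := by
        apply Nat.mul_lt_mul_of_pos_left h1
        positivity
      _ = 2^(L + k + 1) := by rw [← pow_add]; congr 1; ring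
  have h3 : Nat.log 2 m ≤ 2 * L := by omega
  have h4 : Nat.log 2 (Nat.log 2 m) ≤ Nat.log 2 (2 * L) := Nat.log_mono_right h3
  have h5 : Nat.log 2 (2 * L) < Nat.log 2 L + 2 := by
    rw [Nat.log_lt_iff_lt_pow (by norm_num) (by omega)]
    have h6 : L < 2 ^ (Nat.log 2 L + 1) := Nat.lt_pow_succ_log_self (by norm_num) L
    have h7 : 2 ^ (Nat.log 2 L + 2) = 2 * 2 ^ (Nat.log 2 L + 1) := by ring
    omega
  omega

lemma del_step {g : ℕ} (hg : 2 ∣ g) (b : ℕ) :
    1 - 2 / ((b:ℝ)+1) ≤ del {0, g} (b+1) / del {0, g} b := by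
  rw [le_div_iff₀ (del_pos hg b), mul_comm]
  refine le_trans ?_ (del_ratio {0, g} b 1)
  apply mul_le_mul_of_nonneg_left _ (del_nonneg _ _)
  have hcard : (({0, g} : Finset ℕ).card : ℝ) ≤ 2 := by exact_mod_cast Finset.card_le_two
  have h1 : rp b (b+1) ≤ ((b:ℝ)+1)⁻¹ := by
    rw [rp_succ le_rfl, rp_self]
    split_ifs
    · push_cast; linarith
    · positivity
  have h2 : (({0, g} : Finset ℕ).card : ℝ) * rp b (b+1) ≤ 2 * ((b:ℝ)+1)⁻¹ :=
    mul_le_mul hcard h1 (rp_nonneg _ _) (by norm_num)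
  rw [div_eq_mul_inv]
  linarith

lemma del_ratio_tendsto {g : ℕ} (hg : 2 ∣ g) {a b : ℕ → ℕ} (hb : Tendsto b atTop atTop)
    (h1 : ∀ᶠ n in atTop, a n ≤ b n + 1) (h2 : ∀ᶠ n in atTop, b n ≤ a n + 1) :
    Tendsto (fun n => del {0, g} (a n) / del {0, g} (b n)) atTop (𝓝 1) := by
  have hs : Tendsto (fun k : ℕ => del {0, g} (k+1) / del {0, g} k) atTop (𝓝 1) := by
    have h3 : Tendsto (fun k : ℕ => 1 - 2 / ((k:ℝ)+1)) atTop (𝓝 1) := by
      have h4 : Tendsto (fun k : ℕ => 2 / ((k:ℝ)+1)) atTop (𝓝 0) := by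
        have := (tendsto_one_div_add_atTop_nhds_zero_nat (𝕜 := ℝ)).const_mul 2
        simpa [div_eq_mul_inv] using this
      simpa using h4.const_sub 1
    refine tendsto_of_tendsto_of_tendsto_of_le_of_le h3 tendsto_const_nhds (fun k => del_step hg k) ?_
    intro k
    simp only
    rw [div_le_one (del_pos hg k)]
    exact del_antitone _ (by omega)
  have hlow := hs.comp hb
  have hb1 : Tendsto (fun n => b n - 1) atTop atTop := (tendsto_sub_atTop_nat 1).comp hb
  have hup := (hs.comp hb1).inv₀ one_ne_zero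
  rw [inv_one] at hup
  refine tendsto_of_tendsto_of_tendsto_of_le_of_le' hlow hup ?_ ?_
  · filter_upwards [h1] with n hn
    simp only [Function.comp]
    have := del_pos hg (b n)
    gcongr
    exact del_antitone _ hn
  · filter_upwards [h2, hb.eventually_ge_atTop 1] with n hn hb1
    simp only [Function.comp, inv_div]
    rw [Nat.sub_add_cancel hb1]
    have := del_pos hg (b n)
    gcongr
    exact del_antitone _ (by omega)

theorem F_regular {g : ℕ} (hg : 2 ∣ g) {lam : ℝ} (hlam : 0 < lam) :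
    Tendsto (fun n : ℕ => F g ⌊lam * n⌋₊ / F g n) atTop (𝓝 (lam ^ (2:ℝ))) := by
  obtain ⟨k, hk⟩ : ∃ k : ℕ, lam ≤ 2^k ∧ (2^k)⁻¹ ≤ lam := by
    obtain ⟨k1, hk1⟩ := pow_unbounded_of_one_lt lam (one_lt_two)
    obtain ⟨k2, hk2⟩ := pow_unbounded_of_one_lt lam⁻¹ (one_lt_two)
    refine ⟨k1 + k2, ?_, ?_⟩
    · refine hk1.le.trans ?_
      apply pow_le_pow_right₀ (by norm_num) (by omega)
    · rw [inv_le_comm₀ (by positivity) hlam]
      refine hk2.le.trans ?_
      apply pow_le_pow_right₀ (by norm_num) (by omega)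
  have h1 : Tendsto (fun n : ℕ => ((⌊lam * n⌋₊ : ℕ) : ℝ) / n) atTop (𝓝 lam) :=
    (tendsto_nat_floor_mul_div_atTop hlam.le).comp (tendsto_natCast_atTop_atTop (R := ℝ))
  have hfl : ∀ n : ℕ, ⌊lam * n⌋₊ ≤ 2^k * n := by
    intro n
    apply Nat.floor_le_of_le
    push_cast
    exact mul_le_mul_of_nonneg_right hk.1 (Nat.cast_nonneg n)
  have hfl2 : ∀ n : ℕ, 2^(k+1) ≤ n → n ≤ 2^(k+1) * ⌊lam * n⌋₊ := by
    intro n hn
    have h2 : lam * n < ⌊lam * n⌋₊ + 1 := Nat.lt_floor_add_one _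
    have h3 : (2^k)⁻¹ * (n:ℝ) ≤ lam * n := mul_le_mul_of_nonneg_right hk.2 (Nat.cast_nonneg n)
    have h4 : (n:ℝ) < 2^k * (⌊lam * n⌋₊ + 1) := by
      have h5 : (2^k)⁻¹ * (n:ℝ) < ⌊lam * n⌋₊ + 1 := by linarith
      rwa [inv_mul_lt_iff₀ (by positivity)] at h5
    have h5 : n < 2^k * (⌊lam * n⌋₊ + 1) := by exact_mod_cast h4
    have h6 : 2^(k+1) = 2 * 2^k := by ring
    rw [h6] at hn ⊢
    have h7 : 2 * 2^k * ⌊lam * n⌋₊ = 2 * (2^k * ⌊lam * n⌋₊) := by ring
    have h8 : 2^k * (⌊lam * n⌋₊ + 1) = 2^k * ⌊lam * n⌋₊ + 2^k := by ring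
    omega
  have h2 : Tendsto (fun n : ℕ => del {0, g} (ll ⌊lam * n⌋₊) / del {0, g} (ll n)) atTop (𝓝 1) := by
    apply del_ratio_tendsto hg ll_tendsto
    · filter_upwards [log_tendsto.eventually_ge_atTop k, eventually_ge_atTop (2^(k+2))] with n h3 h4
      have h5 : 4 ≤ 2^(k+2) := by
        rw [pow_add]
        have : 1 ≤ 2^k := Nat.one_le_two_pow
        omega
      have h6 : 2^(k+2) = 2 * 2^(k+1) := by ring
      have h7 := hfl2 n (by omega)
      refine ll_le (hfl n) h3 (by omega) ?_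
      by_contra hcon
      push Not at hcon
      have h8 : ⌊lam * n⌋₊ ≤ 1 := by omega
      have h9 : 2^(k+1) * ⌊lam * n⌋₊ ≤ 2^(k+1) * 1 := Nat.mul_le_mul_left _ h8
      have h10 : 1 ≤ 2^(k+1) := Nat.one_le_two_pow
      omega
    · have hft : Tendsto (fun n : ℕ => ⌊lam * n⌋₊) atTop atTop := by
        apply tendsto_nat_floor_atTop.comp
        exact (tendsto_natCast_atTop_atTop (R := ℝ)).const_mul_atTop hlam
      filter_upwards [hft.eventually (log_tendsto.eventually_ge_atTop (k+1)),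
        hft.eventually_ge_atTop 2, eventually_ge_atTop (2^(k+1)), eventually_ge_atTop 2] with n h3 h4 h5 h6
      exact ll_le (hfl2 n h5) h3 h4 h6
  have h3 := (h1.pow 2).mul h2
  rw [mul_one, ← Real.rpow_natCast lam 2] at h3
  norm_num at h3 ⊢
  refine h3.congr' ?_
  filter_upwards [eventually_ge_atTop 1] with n hn
  have hn0 : (0:ℝ) < n := by exact_mod_cast hn
  have hd := del_pos hg (ll n)
  unfold F
  field_simp

end Q43.Tw
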